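import Pool.Agent.ANP.Defs

/-! # ANP: elementary facts on `Pr`, product bound inside a class -/

set_option autoImplicit false

open Finset

namespace Pool.Agent.ANP

variable {Λ X : Type} [Fintype Λ] [DecidableEq Λ] [Fintype X] [DecidableEq X]
variable {w : Λ → X → ℝ}

theorem wt_nonneg (hw : IsLaw w) (v : Λ → X) : 0 ≤ wt w v :=
  prod_nonneg fun x _ => hw.nonneg x _

theorem Pr_nonneg (hw : IsLaw w) (E : Set (Λ → X)) : 0 ≤ Pr w E :=
  sum_nonneg fun v _ => wt_nonneg hw v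

theorem Pr_mono (hw : IsLaw w) {E F : Set (Λ → X)} (h : E ⊆ F) : Pr w E ≤ Pr w F := by
  classical
  unfold Pr
  refine sum_le_sum_of_subset_of_nonneg ?_ fun v _ _ => wt_nonneg hw v
  intro v hv
  rw [mem_filter] at hv ⊢
  exact ⟨hv.1, h hv.2⟩

theorem Pr_univ (hw : IsLaw w) : Pr w (Set.univ : Set (Λ → X)) = 1 := by
  classical
  have h : Pr w (Set.univ : Set (Λ → X)) = ∑ v : Λ → X, ∏ x, w x (v x) := by
    unfold Pr wt
    refine sum_congr ?_ fun _ _ => rfl
    ext v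
    simp
  rw [h, ← Fintype.prod_sum]
  exact prod_eq_one fun x _ => hw.sum_one x

theorem Pr_empty : Pr w (∅ : Set (Λ → X)) = 0 := by
  unfold Pr
  refine sum_eq_zero fun v hv => ?_
  simp at hv

theorem Pr_iUnion_le (hw : IsLaw w) {ι : Type} (s : Finset ι) (E : ι → Set (Λ → X)) :
    Pr w (⋃ i ∈ s, E i) ≤ ∑ i ∈ s, Pr w (E i) := by
  classical
  unfold Pr
  simp_rw [sum_filter]
  rw [sum_comm]
  refine sum_le_sum fun v _ => ?_
  split_ifs with h
  · rw [Set.mem_iUnion₂] at h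
    obtain ⟨i, hi, hv⟩ := h
    refine le_trans ?_ (single_le_sum (f := fun i => if v ∈ E i then wt w v else 0)
      (fun j _ => ?_) hi)
    · exact (if_pos hv).ge
    · split_ifs
      exacts [wt_nonneg hw v, le_rfl]
  · exact sum_nonneg fun j _ => by
      split_ifs
      exacts [wt_nonneg hw v, le_rfl]

/-- exchange of the coordinates in `S` -/
def sw (S : Finset Λ) (p : (Λ → X) × (Λ → X)) : (Λ → X) × (Λ → X) :=
  (S.piecewise p.1 p.2, S.piecewise p.2 p.1)

omit [Fintype Λ] [Fintype X] [DecidableEq X] in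
theorem sw_sw (S : Finset Λ) (p : (Λ → X) × (Λ → X)) : sw S (sw S p) = p := by
  unfold sw
  ext x
  · by_cases h : x ∈ S <;> simp [h]
  · by_cases h : x ∈ S <;> simp [h]

omit [Fintype X] [DecidableEq X] in
theorem wt_sw (S : Finset Λ) (p : (Λ → X) × (Λ → X)) :
    wt w (sw S p).1 * wt w (sw S p).2 = wt w p.1 * wt w p.2 := by
  unfold wt sw
  rw [← prod_mul_distrib, ← prod_mul_distrib]
  refine prod_congr rfl fun x _ => ?_
  by_cases h : x ∈ S
  · simp [h]
  · simp [h, mul_comm]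

omit [Fintype Λ] [Fintype X] [DecidableEq X] in
theorem sw_mem {q : X → ℤ} {A : Finset Λ} {v : Λ → X} (S : Finset Λ) {p : (Λ → X) × (Λ → X)}
    (h1 : p.1 ∈ Cl q A v) (h2 : p.2 ∈ Cl q A v) :
    (sw S p).1 ∈ Cl q A v ∧ (sw S p).2 ∈ Cl q A v := by
  constructor
  · constructor
    · intro x hx
      by_cases h : x ∈ S
      · simp only [sw, h, piecewise_eq_of_mem]
        exact h1.1 x hx
      · simp only [sw, h, not_false_eq_true, piecewise_eq_of_notMem]
        exact h2.1 x hx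
    · intro x hx
      by_cases h : x ∈ S
      · simp only [sw, h, piecewise_eq_of_mem]
        exact h1.2 x hx
      · simp only [sw, h, not_false_eq_true, piecewise_eq_of_notMem]
        exact h2.2 x hx
  · constructor
    · intro x hx
      by_cases h : x ∈ S
      · simp only [sw, h, piecewise_eq_of_mem]
        exact h2.1 x hx
      · simp only [sw, h, not_false_eq_true, piecewise_eq_of_notMem]
        exact h1.1 x hx
    · intro x hx
      by_cases h : x ∈ S
      · simp only [sw, h, piecewise_eq_of_mem]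
        exact h2.2 x hx
      · simp only [sw, h, not_false_eq_true, piecewise_eq_of_notMem]
        exact h1.2 x hx

/-- Independence inside a class. -/
theorem Pr_indep {q : X → ℤ} {A : Finset Λ} {v : Λ → X} {S S' : Finset Λ} (hS : Disjoint S S')
    {E F : Set (Λ → X)} (hE : DependsOnIn (Cl q A v) S E) (hF : DependsOnIn (Cl q A v) S' F) :
    Pr w (E ∩ F ∩ Cl q A v) * Pr w (Cl q A v) =
      Pr w (E ∩ Cl q A v) * Pr w (F ∩ Cl q A v) := by
  classical
  have e1 : ∀ (U V : Set (Λ → X)), Pr w U * Pr w V =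
      ∑ p : (Λ → X) × (Λ → X), if p.1 ∈ U ∧ p.2 ∈ V then wt w p.1 * wt w p.2 else 0 := by
    intro U V
    unfold Pr
    rw [sum_filter, sum_filter, sum_mul_sum, ← univ_product_univ, sum_product]
    refine sum_congr rfl fun a _ => sum_congr rfl fun b _ => ?_
    by_cases ha : a ∈ U <;> by_cases hb : b ∈ V <;> simp [ha, hb]
  rw [e1, e1]
  symm
  refine sum_bij' (fun p _ => sw S p) (fun p _ => sw S p) (fun _ _ => mem_univ _)
    (fun _ _ => mem_univ _) (fun p _ => sw_sw S p) (fun p _ => sw_sw S p) fun p _ => ?_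
  rw [wt_sw]
  have hm : (p.1 ∈ E ∩ Cl q A v ∧ p.2 ∈ F ∩ Cl q A v) ↔
      ((sw S p).1 ∈ E ∩ F ∩ Cl q A v ∧ (sw S p).2 ∈ Cl q A v) := by
    have key : ∀ p : (Λ → X) × (Λ → X), p.1 ∈ Cl q A v → p.2 ∈ Cl q A v →
        ((p.1 ∈ E ↔ (sw S p).1 ∈ E) ∧ (p.2 ∈ F ↔ (sw S p).1 ∈ F)) := by
      intro p h1 h2
      obtain ⟨h3, h4⟩ := sw_mem S h1 h2
      refine ⟨hE _ h1 _ h3 fun x hx => ?_, hF _ h2 _ h3 fun x hx => ?_⟩
      · simp [sw, hx]
      · have : x ∉ S := fun h => (Finset.disjoint_left.1 hS h hx).elim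
        simp [sw, this]
    constructor
    · rintro ⟨⟨h1, h2⟩, h3, h4⟩
      obtain ⟨k1, k2⟩ := key p h2 h4
      obtain ⟨h5, h6⟩ := sw_mem S h2 h4
      exact ⟨⟨⟨k1.1 h1, k2.1 h3⟩, h5⟩, h6⟩
    · rintro ⟨⟨⟨h1, h2⟩, h3⟩, h4⟩
      have h5 : p.1 ∈ Cl q A v ∧ p.2 ∈ Cl q A v := by
        have := sw_mem S (p := sw S p) h3 h4
        rwa [sw_sw] at this
      obtain ⟨k1, k2⟩ := key p h5.1 h5.2
      exact ⟨⟨k1.2 h1, h5.1⟩, k2.2 h2, h5.2⟩
  by_cases h : p.1 ∈ E ∩ Cl q A v ∧ p.2 ∈ F ∩ Cl q A v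
  · rw [if_pos h, if_pos (hm.1 h)]
  · rw [if_neg h, if_neg fun h' => h (hm.2 h')]

/-- Product bound inside a class. -/
theorem Pr_prod_le (hw : IsLaw w) {q : X → ℤ} {A : Finset Λ} {v : Λ → X} {ι : Type}
    [DecidableEq ι] (T : Finset ι) (zone : ι → Finset Λ) (E : ι → Set (Λ → X)) (p : ℝ)
    (hp : 0 ≤ p)
    (hz : ∀ i ∈ T, ∀ i' ∈ T, i ≠ i' → Disjoint (zone i) (zone i'))
    (hE : ∀ i ∈ T, DependsOnIn (Cl q A v) (zone i) (E i))
    (hpr : ∀ i ∈ T, Pr w (E i ∩ Cl q A v) ≤ p * Pr w (Cl q A v)) :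
    Pr w ({u | ∀ i ∈ T, u ∈ E i} ∩ Cl q A v) ≤ p ^ T.card * Pr w (Cl q A v) := by
  classical
  induction T using Finset.induction_on with
  | empty => simp
  | insert i T hi ih =>
    have ih' := ih (fun a ha b hb => hz a (mem_insert_of_mem ha) b (mem_insert_of_mem hb))
      (fun a ha => hE a (mem_insert_of_mem ha)) fun a ha => hpr a (mem_insert_of_mem ha)
    have hdep : DependsOnIn (Cl q A v) (T.biUnion zone) {u | ∀ i ∈ T, u ∈ E i} := by
      intro a ha b hb hab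
      refine forall₂_congr fun j hj => ?_
      exact hE j (mem_insert_of_mem hj) a ha b hb fun x hx =>
        hab x (mem_biUnion.2 ⟨j, hj, hx⟩)
    have hdis : Disjoint (zone i) (T.biUnion zone) := by
      rw [disjoint_biUnion_right]
      intro j hj
      exact hz i (mem_insert_self _ _) j (mem_insert_of_mem hj) fun h => hi (h ▸ hj)
    have h1 := Pr_indep (w := w) hdis (hE i (mem_insert_self _ _)) hdep
    have h2 : {u : Λ → X | ∀ k ∈ insert i T, u ∈ E k} = E i ∩ {u | ∀ i ∈ T, u ∈ E i} := by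
      ext u
      simp
    rw [h2, card_insert_of_notMem hi]
    have hc := Pr_nonneg hw (Cl q A v)
    rcases hc.eq_or_lt with h0 | h0
    · have h3 : Pr w (E i ∩ {u | ∀ i ∈ T, u ∈ E i} ∩ Cl q A v) ≤ Pr w (Cl q A v) :=
        Pr_mono hw fun u hu => hu.2
      rw [← h0] at h3 ⊢
      simpa using h3
    · have h3 : Pr w (E i ∩ {u | ∀ i ∈ T, u ∈ E i} ∩ Cl q A v) * Pr w (Cl q A v) ≤
          (p ^ (T.card + 1) * Pr w (Cl q A v)) * Pr w (Cl q A v) := by
        rw [h1]
        calc Pr w (E i ∩ Cl q A v) * Pr w ({u | ∀ i ∈ T, u ∈ E i} ∩ Cl q A v)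
            ≤ (p * Pr w (Cl q A v)) * (p ^ T.card * Pr w (Cl q A v)) :=
              mul_le_mul (hpr i (mem_insert_self _ _)) ih' (Pr_nonneg hw _)
                (mul_nonneg hp hc)
          _ = _ := by ring
      exact le_of_mul_le_mul_right h3 h0

end Pool.Agent.ANP
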