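import Mathlib

/-! # ANP: abstract probabilistic induction for the Anderson project (MP_28b024_mp), definitions

Design (D1') of /team-store/and_ref_helper5.md, on a FINITE probability space: configurations
`v : Λ → X`, `Λ` the finite torus, `X` the finite set of dyadic cells of the final level, with
weights `w x : X → ℝ` (nonnegative, sum 1).  `Pr w E` is the product probability of `E`.

`SameCl q A v v'`: `v'` has the same digits `q` as `v` at the sites of `A` and is equal to `v`
at the other sites.  `Cl q A v` is the class of `v`; conditioning on the past is restriction to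
a class.  `DependsOnIn C S E`: inside `C` the event `E` depends only on the coordinates in `S`.
-/

set_option autoImplicit false

open Finset

namespace Pool.Agent.ANP

variable {Λ X : Type} [Fintype Λ] [DecidableEq Λ] [Fintype X] [DecidableEq X]

/-- the weight of a configuration -/
def wt (w : Λ → X → ℝ) (v : Λ → X) : ℝ := ∏ x, w x (v x)

open Classical in
/-- the probability of a set of configurations -/
noncomputable def Pr (w : Λ → X → ℝ) (E : Set (Λ → X)) : ℝ :=
  ∑ v ∈ univ.filter (fun v => v ∈ E), wt w v

/-- `w x` is a probability law for every site `x` -/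
structure IsLaw (w : Λ → X → ℝ) : Prop where
  nonneg : ∀ x a, 0 ≤ w x a
  sum_one : ∀ x, ∑ a, w x a = 1

/-- the same digits on `A`, equal outside `A` -/
def SameCl (q : X → ℤ) (A : Finset Λ) (v v' : Λ → X) : Prop :=
  (∀ x ∈ A, q (v' x) = q (v x)) ∧ ∀ x, x ∉ A → v' x = v x

/-- the class of `v` -/
def Cl (q : X → ℤ) (A : Finset Λ) (v : Λ → X) : Set (Λ → X) := {v' | SameCl q A v v'}

/-- inside `C` the event `E` depends only on the coordinates in `S` -/
def DependsOnIn (C : Set (Λ → X)) (S : Finset Λ) (E : Set (Λ → X)) : Prop :=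
  ∀ v ∈ C, ∀ v' ∈ C, (∀ x ∈ S, v x = v' x) → (v ∈ E ↔ v' ∈ E)

/-- The abstract algorithm: `J` super-stages; `Cell j` the cells of super-stage `j`, `zone L` the
sites on which the primary badness of `L` depends; `act j v` the active sites at the start of
super-stage `j`; `prim j L` the primary bad event of the cell `L` (some run fails or some leak
test fails); `pre j L`: a badness which is already decided at the start of super-stage `j`;
`nb L` the cells of the previous super-stage near `L`; `2 m` the number of bad cells
of the previous super-stage which make `L` bad. -/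
structure Alg (Λ X : Type) [Fintype Λ] [DecidableEq Λ] [Fintype X] [DecidableEq X] where
  q : ℕ → X → ℤ
  Cell : ℕ → Type
  [cf : ∀ j, Fintype (Cell j)]
  [cd : ∀ j, DecidableEq (Cell j)]
  zone : ∀ {j : ℕ}, Cell j → Finset Λ
  nb : ∀ {j : ℕ}, Cell (j + 1) → Finset (Cell j)
  act : ℕ → (Λ → X) → Finset Λ
  prim : ∀ j, Cell j → Set (Λ → X)
  pre : ∀ j, Cell j → Set (Λ → X)
  m : ℕ

attribute [instance] Alg.cf Alg.cd

namespace Alg

variable (G : Alg Λ X)

/-- cells with pairwise disjoint zones -/
def Disj {j : ℕ} (T : Finset (G.Cell j)) : Prop :=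
  ∀ L ∈ T, ∀ L' ∈ T, L ≠ L' → Disjoint (G.zone L) (G.zone L')

/-- the bad cells: primary bad, bad at the start, or `2 m` bad cells with disjoint zones of the
previous super-stage are near -/
def bad : ∀ j : ℕ, G.Cell j → Set (Λ → X)
  | 0, L => G.prim 0 L ∪ G.pre 0 L
  | j + 1, L => G.prim (j + 1) L ∪ (G.pre (j + 1) L ∪
      {v | ∃ T : Finset (G.Cell j), T ⊆ G.nb L ∧ T.card = 2 * G.m ∧ G.Disj T ∧
        ∀ L' ∈ T, v ∈ bad j L'})

/-- the class of `v` at the start of super-stage `j` -/
def cls (j : ℕ) (v : Λ → X) : Set (Λ → X) := Cl (G.q j) (G.act j v) v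

/-- the rules of the algorithm: the digits refine each other, active sets decrease, the active set
is a function of the class, past decisions are functions of the class, the primary badness of a
cell depends inside a class only on the zone of the cell -/
structure Rules : Prop where
  refine : ∀ j a b, G.q (j + 1) a = G.q (j + 1) b → G.q j a = G.q j b
  anti : ∀ j v, G.act (j + 1) v ⊆ G.act j v
  act_cls : ∀ j v, ∀ v' ∈ G.cls j v, G.act j v' = G.act j v
  past : ∀ j (L : G.Cell j) v, ∀ v' ∈ G.cls (j + 1) v, (v ∈ G.prim j L ↔ v' ∈ G.prim j L)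
  start : ∀ j (L : G.Cell j) v, ∀ v' ∈ G.cls j v, (v ∈ G.pre j L ↔ v' ∈ G.pre j L)
  loc : ∀ j (L : G.Cell j) v, DependsOnIn (G.cls j v) (G.zone L) (G.prim j L)
  nbz : ∀ j (L : G.Cell (j + 1)), ∀ L' ∈ G.nb L, G.zone L' ⊆ G.zone L
  zne : ∀ j (L : G.Cell (j + 1)), ∀ L' ∈ G.nb L, (G.zone L').Nonempty

end Alg

end Pool.Agent.ANP
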