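import Pool.Agent.ANM.GeoPhi
import Pool.Agent.ANT.Defs

/-!
# ANP / Tor: the metric of the torus and its cells

`dT x y = tn (x - y)` is the sup distance of the torus `Tor d L`. For `L = s * t` the cells of
side `s` are the fibres of `cel : Tor d (s * t) → Tor d t`.
-/

set_option autoImplicit false

open Finset

namespace Pool.Agent.ANP

open Pool.Agent.Kin Pool.Agent.ANM Pool.Agent.ANT

variable {d L : ℕ}

/-- the sup distance on the torus -/
def dT (x y : Tor d L) : ℕ := tn (x - y)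

/-! ### one coordinate -/

lemma vma_le_of_cast [NeZero L] (a : ZMod L) (k : ℤ) (h : (k : ZMod L) = a) :
    a.valMinAbs.natAbs ≤ k.natAbs := by
  refine ZMod.natAbs_min_of_le_div_two L _ _ ?_ a.natAbs_valMinAbs_le
  rw [ZMod.coe_valMinAbs, h]

lemma vma_add [NeZero L] (a b : ZMod L) :
    (a + b).valMinAbs.natAbs ≤ a.valMinAbs.natAbs + b.valMinAbs.natAbs := by
  refine (vma_le_of_cast (a + b) (a.valMinAbs + b.valMinAbs) ?_).trans (Int.natAbs_add_le _ _)
  rw [Int.cast_add, ZMod.coe_valMinAbs, ZMod.coe_valMinAbs]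

lemma vma_neg (a : ZMod L) : (-a).valMinAbs.natAbs = a.valMinAbs.natAbs :=
  ZMod.natAbs_valMinAbs_neg a

/-- intermediate points in one coordinate -/
lemma vma_split [NeZero L] (a : ZMod L) (m n : ℕ) (h : a.valMinAbs.natAbs ≤ m + n) :
    ∃ b : ZMod L, b.valMinAbs.natAbs ≤ m ∧ (a - b).valMinAbs.natAbs ≤ n := by
  obtain ⟨k, hk, hk'⟩ : ∃ k : ℤ, k.natAbs ≤ m ∧ (a.valMinAbs - k).natAbs ≤ n := by
    by_cases h1 : a.valMinAbs.natAbs ≤ m
    · exact ⟨a.valMinAbs, h1, by simp⟩
    · rcases le_total 0 a.valMinAbs with h2 | h2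
      · exact ⟨m, by simp, by omega⟩
      · exact ⟨-m, by simp, by omega⟩
  refine ⟨(k : ZMod L), (vma_le_of_cast _ k rfl).trans hk,
    (vma_le_of_cast _ (a.valMinAbs - k) ?_).trans hk'⟩
  rw [Int.cast_sub, ZMod.coe_valMinAbs]

/-! ### the metric -/

lemma tn_le_iff (x : Tor d L) (r : ℕ) : tn x ≤ r ↔ ∀ j, (x j).valMinAbs.natAbs ≤ r := by
  unfold tn
  rw [Finset.sup_le_iff]
  exact ⟨fun h j => h j (mem_univ j), fun h j _ => h j⟩

lemma le_tn (x : Tor d L) (j : Fin d) : (x j).valMinAbs.natAbs ≤ tn x :=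
  (tn_le_iff x (tn x)).1 le_rfl j

lemma dT_le_iff (x y : Tor d L) (r : ℕ) :
    dT x y ≤ r ↔ ∀ j, (x j - y j).valMinAbs.natAbs ≤ r := tn_le_iff (x - y) r

theorem nmet_dT [NeZero L] : NMet (dT (d := d) (L := L)) where
  self x := by
    refine Nat.le_zero.1 ((dT_le_iff x x 0).2 fun j => ?_)
    simp
  symm x y := by
    refine le_antisymm ((dT_le_iff x y _).2 fun j => ?_) ((dT_le_iff y x _).2 fun j => ?_)
    · rw [← vma_neg, neg_sub]
      exact le_tn (y - x) j
    · rw [← vma_neg, neg_sub]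
      exact le_tn (x - y) j
  tri x y z := by
    refine (dT_le_iff x z _).2 fun j => ?_
    have h : x j - z j = (x j - y j) + (y j - z j) := by ring
    rw [h]
    exact (vma_add _ _).trans (add_le_add (le_tn (x - y) j) (le_tn (y - z) j))

theorem sep_dT [NeZero L] : Sep (dT (d := d) (L := L)) := by
  intro x y h
  funext j
  have h1 : (x j - y j).valMinAbs.natAbs ≤ 0 := (dT_le_iff x y 0).1 h.le j
  have h2 : (x j - y j).valMinAbs = 0 := by omega
  have h3 : x j - y j = 0 := by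
    rw [← ZMod.coe_valMinAbs (x j - y j), h2]
    simp
  exact sub_eq_zero.1 h3

theorem geo_dT [NeZero L] : Geo (dT (d := d) (L := L)) := by
  intro x y m n h
  have h1 : ∀ j, ∃ b : ZMod L, b.valMinAbs.natAbs ≤ m ∧
      (x j - y j - b).valMinAbs.natAbs ≤ n := fun j =>
    vma_split _ m n ((dT_le_iff x y _).1 h j)
  choose b hb hb' using h1
  refine ⟨fun j => x j - b j, (dT_le_iff _ _ _).2 fun j => ?_, (dT_le_iff _ _ _).2 fun j => ?_⟩
  · have : x j - (x j - b j) = b j := by ring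
    rw [this]
    exact hb j
  · have : x j - b j - y j = x j - y j - b j := by ring
    rw [this]
    exact hb' j

lemma dT_single [NeZero L] (x : Tor d L) (j : Fin d) : dT x (x + Pi.single j 1) ≤ 1 := by
  refine (dT_le_iff _ _ _).2 fun i => ?_
  have h1 : x i - (x + (Pi.single j (1 : ZMod L) : Tor d L)) i =
      -(Pi.single j (1 : ZMod L) : Tor d L) i := by
    rw [Pi.add_apply]
    ring
  rw [h1, vma_neg]
  by_cases h : i = j
  · subst h
    rw [Pi.single_eq_same]
    exact vma_le_of_cast (1 : ZMod L) 1 (by simp)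
  · rw [Pi.single_eq_of_ne h]
    simp

lemma dT_single' [NeZero L] (x : Tor d L) (j : Fin d) : dT x (x - Pi.single j 1) ≤ 1 := by
  have h := dT_single (x - (Pi.single j (1 : ZMod L) : Tor d L)) j
  rw [sub_add_cancel] at h
  rw [nmet_dT.symm]
  exact h

/-- the number of the points of a ball -/
lemma card_vma [NeZero L] (a : ZMod L) (r : ℕ) :
    (univ.filter fun b : ZMod L => (a - b).valMinAbs.natAbs ≤ r).card ≤ 2 * r + 1 := by
  have h1 : (univ.filter fun b : ZMod L => (a - b).valMinAbs.natAbs ≤ r) ⊆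
      (Finset.Icc (-(r : ℤ)) r).image fun k : ℤ => a - (k : ZMod L) := by
    intro b hb
    rw [mem_filter] at hb
    rw [mem_image]
    refine ⟨(a - b).valMinAbs, ?_, ?_⟩
    · rw [Finset.mem_Icc]
      omega
    · rw [ZMod.coe_valMinAbs]
      ring
  refine (card_le_card h1).trans (card_image_le.trans ?_)
  rw [Int.card_Icc]
  omega

theorem card_ball [NeZero L] (x : Tor d L) (r : ℕ) :
    (univ.filter fun y : Tor d L => dT x y ≤ r).card ≤ (2 * r + 1) ^ d := by
  have h1 : (univ.filter fun y : Tor d L => dT x y ≤ r) =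
      Fintype.piFinset fun j => univ.filter fun b : ZMod L => (x j - b).valMinAbs.natAbs ≤ r := by
    ext y
    rw [mem_filter, Fintype.mem_piFinset, dT_le_iff]
    simp
  rw [h1, Fintype.card_piFinset]
  calc ∏ j, (univ.filter fun b : ZMod L => (x j - b).valMinAbs.natAbs ≤ r).card
      ≤ ∏ _j : Fin d, (2 * r + 1) := prod_le_prod' fun j _ => card_vma _ _
    _ = (2 * r + 1) ^ d := by simp

/-! ### cells -/

/-- the cell in one coordinate -/
def cel1 (s t : ℕ) (a : ZMod (s * t)) : ZMod t := ((a.val / s : ℕ) : ZMod t)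

/-- the cell of side `s` of a point -/
def cel (s t : ℕ) (x : Tor d (s * t)) : Tor d t := fun j => cel1 s t (x j)

lemma cel1_aux {s t : ℕ} (hs : 0 < s) [NeZero (s * t)] (a b : ZMod (s * t)) :
    ∃ r : ℤ, r.natAbs ≤ s - 1 ∧
      ((a - b : ZMod (s * t)) =
        (((s : ℤ) * ((a.val / s : ℕ) - (b.val / s : ℕ)) + r : ℤ) : ZMod (s * t))) := by
  refine ⟨((a.val % s : ℕ) : ℤ) - ((b.val % s : ℕ) : ℤ), ?_, ?_⟩
  · have h1 := Nat.mod_lt a.val hs
    have h2 := Nat.mod_lt b.val hs
    omega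
  · have h1 : (s : ℤ) * (((a.val / s : ℕ) : ℤ) - ((b.val / s : ℕ) : ℤ)) +
        (((a.val % s : ℕ) : ℤ) - ((b.val % s : ℕ) : ℤ)) = (a.val : ℤ) - (b.val : ℤ) := by
      have h3 := Nat.div_add_mod a.val s
      have h4 := Nat.div_add_mod b.val s
      have h3' : (s : ℤ) * ((a.val / s : ℕ) : ℤ) + ((a.val % s : ℕ) : ℤ) = (a.val : ℤ) := by
        exact_mod_cast h3
      have h4' : (s : ℤ) * ((b.val / s : ℕ) : ℤ) + ((b.val % s : ℕ) : ℤ) = (b.val : ℤ) := by
        exact_mod_cast h4
      rw [← h3', ← h4']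
      ring
    rw [h1]
    push_cast
    rw [ZMod.natCast_zmod_val, ZMod.natCast_zmod_val]

/-- cells are at least as close as points -/
lemma cel1_le {s t : ℕ} (hs : 0 < s) [NeZero t] [NeZero (s * t)] (a b : ZMod (s * t)) :
    s * (cel1 s t a - cel1 s t b).valMinAbs.natAbs ≤ (a - b).valMinAbs.natAbs + (s - 1) := by
  obtain ⟨r, hr, h⟩ := cel1_aux hs a b
  -- the difference as an integer
  have h1 : (((a - b).valMinAbs : ℤ) : ZMod (s * t)) =
      (((s : ℤ) * (((a.val / s : ℕ) : ℤ) - ((b.val / s : ℕ) : ℤ)) + r : ℤ) : ZMod (s * t)) := by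
    rw [ZMod.coe_valMinAbs]
    exact h
  rw [ZMod.intCast_eq_intCast_iff_dvd_sub] at h1
  obtain ⟨k, hk⟩ := h1
  -- s (A - t k) = D - r
  have h2 : (s : ℤ) * ((((a.val / s : ℕ) : ℤ) - ((b.val / s : ℕ) : ℤ)) - t * k) =
      (a - b).valMinAbs - r := by
    push_cast at hk
    push_cast
    linarith [hk]
  have h3 : (cel1 s t a - cel1 s t b).valMinAbs.natAbs ≤
      ((((a.val / s : ℕ) : ℤ) - ((b.val / s : ℕ) : ℤ)) - t * k).natAbs := by
    refine vma_le_of_cast _ _ ?_
    unfold cel1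
    rw [Int.cast_sub, Int.cast_sub, Int.cast_mul, Int.cast_natCast, Int.cast_natCast,
      Int.cast_natCast, ZMod.natCast_self, zero_mul, sub_zero]
  calc s * (cel1 s t a - cel1 s t b).valMinAbs.natAbs
      ≤ s * ((((a.val / s : ℕ) : ℤ) - ((b.val / s : ℕ) : ℤ)) - t * k).natAbs :=
        Nat.mul_le_mul_left s h3
    _ = ((s : ℤ) * ((((a.val / s : ℕ) : ℤ) - ((b.val / s : ℕ) : ℤ)) - t * k)).natAbs := by
        rw [Int.natAbs_mul, Int.natAbs_natCast]
    _ = ((a - b).valMinAbs - r).natAbs := by rw [h2]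
    _ ≤ (a - b).valMinAbs.natAbs + (s - 1) := by omega

/-- points are at least as close as cells -/
lemma cel1_ge {s t : ℕ} (hs : 0 < s) [NeZero t] [NeZero (s * t)] (a b : ZMod (s * t)) :
    (a - b).valMinAbs.natAbs ≤ s * (cel1 s t a - cel1 s t b).valMinAbs.natAbs + (s - 1) := by
  obtain ⟨r, hr, h⟩ := cel1_aux hs a b
  have h1 : (((cel1 s t a - cel1 s t b).valMinAbs : ℤ) : ZMod t) =
      (((((a.val / s : ℕ) : ℤ) - ((b.val / s : ℕ) : ℤ)) : ℤ) : ZMod t) := by
    rw [ZMod.coe_valMinAbs]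
    unfold cel1
    rw [Int.cast_sub, Int.cast_natCast, Int.cast_natCast]
  rw [ZMod.intCast_eq_intCast_iff_dvd_sub] at h1
  obtain ⟨k, hk⟩ := h1
  have h2 : (s : ℤ) * ((cel1 s t a - cel1 s t b).valMinAbs) + r + (s * t : ℤ) * k =
      (s : ℤ) * ((((a.val / s : ℕ) : ℤ) - ((b.val / s : ℕ) : ℤ))) + r := by
    have h5 : (((a.val / s : ℕ) : ℤ) - ((b.val / s : ℕ) : ℤ)) =
        (cel1 s t a - cel1 s t b).valMinAbs + t * k := by linarith [hk]
    rw [h5]
    ring
  have h3 : (a - b).valMinAbs.natAbs ≤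
      ((s : ℤ) * ((cel1 s t a - cel1 s t b).valMinAbs) + r).natAbs := by
    refine vma_le_of_cast _ _ ?_
    rw [h, ← h2]
    push_cast
    have h6 : ((s : ZMod (s * t)) * (t : ZMod (s * t))) = 0 := by
      rw [← Nat.cast_mul]
      exact ZMod.natCast_self (s * t)
    rw [h6]
    ring
  refine h3.trans ((Int.natAbs_add_le _ _).trans (add_le_add ?_ hr))
  rw [Int.natAbs_mul, Int.natAbs_natCast]

theorem cel_le {s t : ℕ} (hs : 0 < s) [NeZero t] [NeZero (s * t)] (x y : Tor d (s * t)) (r : ℕ)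
    (h : dT x y ≤ r) : dT (cel s t x) (cel s t y) ≤ r / s + 1 := by
  refine (dT_le_iff _ _ _).2 fun j => ?_
  have h1 := cel1_le hs (x j) (y j)
  have h2 := (dT_le_iff x y r).1 h j
  have h3 : s * (cel1 s t (x j) - cel1 s t (y j)).valMinAbs.natAbs ≤ r + (s - 1) := by omega
  have h4 : (cel1 s t (x j) - cel1 s t (y j)).valMinAbs.natAbs ≤ (r + (s - 1)) / s :=
    (Nat.le_div_iff_mul_le hs).2 (by rw [mul_comm]; exact h3)
  refine h4.trans ?_
  rw [Nat.div_le_iff_le_mul_add_pred hs]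
  have h5 := Nat.div_add_mod r s
  have h6 := Nat.mod_lt r hs
  have h7 : s * (r / s + 1) = s * (r / s) + s := by ring
  omega

theorem cel_ge {s t : ℕ} (hs : 0 < s) [NeZero t] [NeZero (s * t)] (x y : Tor d (s * t)) (k : ℕ)
    (h : dT (cel s t x) (cel s t y) ≤ k) : dT x y ≤ s * k + (s - 1) := by
  refine (dT_le_iff _ _ _).2 fun j => ?_
  have h1 := cel1_ge hs (x j) (y j)
  have h2 := (dT_le_iff _ _ k).1 h j
  have h3 : (cel1 s t (x j) - cel1 s t (y j)).valMinAbs.natAbs ≤ k := h2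
  have h4 := Nat.mul_le_mul_left s h3
  omega

theorem cel_lt {s t : ℕ} (hs : 0 < s) [NeZero t] [NeZero (s * t)] (x y : Tor d (s * t)) :
    s * dT (cel s t x) (cel s t y) < dT x y + s := by
  have h1 : ∀ j, s * (cel1 s t (x j) - cel1 s t (y j)).valMinAbs.natAbs ≤ dT x y + (s - 1) :=
    fun j => (cel1_le hs (x j) (y j)).trans (Nat.add_le_add_right (le_tn (x - y) j) _)
  have h2 : dT (cel s t x) (cel s t y) ≤ (dT x y + (s - 1)) / s :=
    (dT_le_iff _ _ _).2 fun j => (Nat.le_div_iff_mul_le hs).2 (by rw [mul_comm]; exact h1 j)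
  have h3 := Nat.mul_le_mul_left s h2
  have h4 := Nat.mul_div_le (dT x y + (s - 1)) s
  omega

/-! ### corners -/

/-- the corner of the cell of side `s` of a point -/
def cor (s : ℕ) (x : Tor d L) : Tor d L := fun j => ((s * ((x j).val / s) : ℕ) : ZMod L)

lemma cor_val [NeZero L] (s : ℕ) (x : Tor d L) (j : Fin d) :
    (cor s x j).val = s * ((x j).val / s) := by
  unfold cor
  refine ZMod.val_cast_of_lt ?_
  exact lt_of_le_of_lt (Nat.mul_div_le _ _) (ZMod.val_lt _)

theorem cor_cor [NeZero L] {s s' : ℕ} (h : s ∣ s') (x : Tor d L) :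
    cor s' (cor s x) = cor s' x := by
  rcases Nat.eq_zero_or_pos s with rfl | hs
  · have hs' : s' = 0 := Nat.eq_zero_of_zero_dvd h
    subst hs'
    funext j
    unfold cor
    simp
  · obtain ⟨k, rfl⟩ := h
    funext j
    have h1 := cor_val s x j
    unfold cor at h1 ⊢
    rw [h1]
    have h2 : s * ((x j).val / s) / (s * k) = (x j).val / (s * k) := by
      rw [Nat.mul_div_mul_left _ _ hs, Nat.div_div_eq_div_mul]
    rw [h2]

theorem cor_cor' [NeZero L] {s s' : ℕ} (h : s ∣ s') (x : Tor d L) :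
    cor s (cor s' x) = cor s' x := by
  rcases Nat.eq_zero_or_pos s with rfl | hs
  · have hs' : s' = 0 := Nat.eq_zero_of_zero_dvd h
    subst hs'
    funext j
    unfold cor
    simp
  · obtain ⟨k, rfl⟩ := h
    funext j
    have h1 := cor_val (s * k) x j
    unfold cor at h1 ⊢
    rw [h1]
    have h2 : s * (s * k * ((x j).val / (s * k)) / s) = s * k * ((x j).val / (s * k)) := by
      rw [mul_assoc s k, Nat.mul_div_cancel_left _ hs]
    rw [h2]

theorem cor_idem [NeZero L] (s : ℕ) (x : Tor d L) : cor s (cor s x) = cor s x :=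
  cor_cor (dvd_refl s) x

theorem dT_cor [NeZero L] {s : ℕ} (hs : 0 < s) (x : Tor d L) : dT x (cor s x) ≤ s - 1 := by
  refine (dT_le_iff _ _ _).2 fun j => ?_
  have h1 : ((((x j).val % s : ℕ) : ℤ) : ZMod L) = x j - cor s x j := by
    have h2 : (x j).val = s * ((x j).val / s) + (x j).val % s := (Nat.div_add_mod _ _).symm
    have h3 : x j = ((s * ((x j).val / s) + (x j).val % s : ℕ) : ZMod L) := by
      rw [← h2, ZMod.natCast_zmod_val]
    unfold cor
    rw [Int.cast_natCast]
    nth_rewrite 2 [h3]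
    rw [Nat.cast_add]
    ring
  refine (vma_le_of_cast _ _ h1).trans ?_
  rw [Int.natAbs_natCast]
  have := Nat.mod_lt (x j).val hs
  omega

theorem cor_eq_iff {s t : ℕ} (hs : 0 < s) [NeZero t] [NeZero (s * t)] (x y : Tor d (s * t)) :
    cor s x = cor s y ↔ cel s t x = cel s t y := by
  have h0 : ∀ a : ZMod (s * t), a.val / s < t := fun a =>
    Nat.div_lt_of_lt_mul (ZMod.val_lt a)
  constructor
  · intro h
    funext j
    have h1 : (cor s x j).val = (cor s y j).val := by rw [h]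
    rw [cor_val, cor_val] at h1
    have h2 := Nat.eq_of_mul_eq_mul_left hs h1
    unfold cel cel1
    rw [h2]
  · intro h
    funext j
    have h1 : (cel s t x j).val = (cel s t y j).val := by rw [h]
    unfold cel cel1 at h1
    rw [ZMod.val_cast_of_lt (h0 _), ZMod.val_cast_of_lt (h0 _)] at h1
    unfold cor
    rw [h1]

/-- the number of the cells which meet a ball -/
theorem card_cor [NeZero L] {s : ℕ} (hs : 0 < s) (hL : s ∣ L) (x : Tor d L) (r : ℕ) :
    ((univ.filter fun y : Tor d L => dT x y ≤ r).image (cor s)).card ≤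
      (2 * (r / s + 1) + 1) ^ d := by
  obtain ⟨t, rfl⟩ := hL
  have : NeZero t := ⟨fun h => NeZero.ne (s * t) (by rw [h, mul_zero])⟩
  refine le_trans ?_ (card_ball (cel s t x) (r / s + 1))
  refine card_le_card_of_injOn (cel s t) ?_ ?_
  · intro c hc
    rw [mem_coe, mem_image] at hc
    obtain ⟨y, hy, rfl⟩ := hc
    rw [mem_filter] at hy
    rw [mem_coe, mem_filter]
    refine ⟨mem_univ _, ?_⟩
    have h1 : cel s t (cor s y) = cel s t y := (cor_eq_iff hs _ _).1 (cor_idem s y)
    rw [h1]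
    exact cel_le hs x y r hy.2
  · intro c hc c' hc' h
    rw [mem_coe, mem_image] at hc hc'
    obtain ⟨y, _, rfl⟩ := hc
    obtain ⟨y', _, rfl⟩ := hc'
    have h1 := (cor_eq_iff hs _ _).2 h
    rwa [cor_idem, cor_idem] at h1

/-- the cells have `s ^ d` points -/
theorem card_cell [NeZero L] {s : ℕ} (hs : 0 < s) (x : Tor d L) :
    (univ.filter fun y : Tor d L => cor s y = cor s x).card ≤ s ^ d := by
  have h1 : (univ.filter fun y : Tor d L => cor s y = cor s x).card ≤
      (Fintype.piFinset fun _ : Fin d => Finset.range s).card := by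
    refine card_le_card_of_injOn (fun y j => (y j).val % s) ?_ ?_
    · intro y _
      rw [mem_coe, Fintype.mem_piFinset]
      exact fun j => mem_range.2 (Nat.mod_lt _ hs)
    · intro y hy y' hy' h
      rw [mem_coe, mem_filter] at hy hy'
      funext j
      have h2 : (cor s y j).val = (cor s y' j).val := by rw [hy.2, hy'.2]
      rw [cor_val, cor_val] at h2
      have h3 : (y j).val % s = (y' j).val % s := congrFun h j
      have h4 := Nat.div_add_mod (y j).val s
      have h5 := Nat.div_add_mod (y' j).val s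
      exact ZMod.val_injective L (by omega)
  refine h1.trans ?_
  rw [Fintype.card_piFinset]
  simp

end Pool.Agent.ANP
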