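import Pool.Agent.ANP.Rec

/-! # ANP: the algorithm of the Anderson project (states, runs, decisions)

Design (D1') of /team-store/and_ref_helper5.md.  Everything is a finite deterministic recursion.

GEOMETRY (`Geo`): a finite set of sites with a distance `dist`, cells of super-stage `j` = fibres of
the corner map `cor j`, side `side j`; `lv j` the digit level at the start of super-stage `j`,
`nf` the last digit level (`q nf` is injective); `R j` the radius of the holes made at the end of
super-stage `j`; `Rf j` the radius of the frozen neighbourhood of the old blobs in one of the tested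
patterns; `rho j` the distance which defines the clusters of old blobs; `D j` the distance to the new
blobs below which a cluster is kept; `2 m` the number of bad cells which make a cell bad.

PROFILE (`Prof`): level of every site, active sites, read sites, self-energies of the static sites
(all other sites).

ANALYSIS (`Ana`): `sgv π v` the current self-energies `κ_x γ_x` of the active sites of the medium with
profile `π` and digits `v`; `RG j S N L v`: the run of super-stage `j` from the state `S` in which
the sites of `N` read their digits from level `lv j` to `lv (j+1)` and all other sites stay static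
is good near the cell `L` (at all intermediate steps); `LK j S L P v`: the leverages of the clusters
of old blobs near `L` are small, for the pattern `P`; `PR j S L v`: the cell `L` is already bad at the
start of super-stage `j` (weak sites).

STATE (`St`): profile, old blobs (static sites), bad cells of the previous super-stage.

SUPER-STAGE `j` (`next`): `bad` = cells `L` such that for some set `P` of cells near `L` the run with
reading set `test` (active sites within `5 side` of `L`, minus the neighbourhoods of the cells of
`P`, and possibly minus the `Rf`-neighbourhood of the old blobs) is not good, or `LK` fails, or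
`PR`, or `2 m` bad cells of the previous super-stage with disjoint zones are near.  `froz` =
neighbourhoods of the bad cells; the active sites in `froz` become static, `N` = the other active
sites go to level `lv (j+1)`.  The clusters of old blobs which are near `froz` are kept (`Rl`), the
others (`Ins`) are inserted: their `R`-neighbourhoods become holes (read).  The active sites in the
`R`-neighbourhood of `Rl` become static.
-/

set_option autoImplicit false

open Finset

namespace Pool.Agent.ANP

/-- geometry and parameters of the algorithm -/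
structure Geo (Λ : Type) where
  dist : Λ → Λ → ℕ
  cor : ℕ → Λ → Λ
  side : ℕ → ℕ
  lv : ℕ → ℕ
  nf : ℕ
  R : ℕ → ℕ
  Rf : ℕ → ℕ
  rho : ℕ → ℕ
  D : ℕ → ℕ
  m : ℕ

/-- a profile -/
@[ext] structure Prof (Λ : Type) where
  lev : Λ → ℕ
  act : Finset Λ
  rd : Finset Λ
  sg : Λ → ℂ

/-- a state at the start of a super-stage -/
@[ext] structure St (Λ : Type) where
  pi : Prof Λ
  old : Finset Λ
  pb : Finset Λ

/-- the analytic input of the algorithm -/
structure Ana (Λ X : Type) where
  q : ℕ → X → ℤ
  sgv : Prof Λ → (Λ → X) → Λ → ℂ
  RG : ℕ → St Λ → Finset Λ → Λ → (Λ → X) → Prop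
  LK : ℕ → St Λ → Λ → Finset Λ → (Λ → X) → Prop
  PR : ℕ → St Λ → Λ → (Λ → X) → Prop

variable {Λ X : Type} [Fintype Λ] [DecidableEq Λ] [Fintype X] [DecidableEq X]

namespace Geo

open Classical in
/-- the closed `r`-neighbourhood of `A` -/
noncomputable def nbhd (g : Geo Λ) (r : ℕ) (A : Finset Λ) : Finset Λ :=
  univ.filter fun x => ∃ y ∈ A, g.dist x y ≤ r

/-- the sites of the cell with corner `c` -/
def cell (g : Geo Λ) (j : ℕ) (c : Λ) : Finset Λ := univ.filter fun x => g.cor j x = c

/-- the corners = the cells of super-stage `j` -/
def corners (g : Geo Λ) (j : ℕ) : Finset Λ := univ.filter fun c => g.cor j c = c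

/-- the region of radius `r * side` around the cell `c` -/
noncomputable def reg (g : Geo Λ) (j r : ℕ) (c : Λ) : Finset Λ :=
  g.nbhd (r * g.side j) (g.cell j c)

/-- the union of the neighbourhoods of the cells in `P` -/
noncomputable def hood (g : Geo Λ) (j : ℕ) (P : Finset Λ) : Finset Λ := P.biUnion (g.reg j 1)

open Classical in
/-- the cells whose neighbourhood can meet the region of radius `5` around `c` -/
noncomputable def nearc (g : Geo Λ) (j : ℕ) (c : Λ) : Finset Λ :=
  (g.corners j).filter fun c' => ¬ Disjoint (g.reg j 1 c') (g.reg j 5 c)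

end Geo

/-- the active sites become static except those of `N` -/
def Prof.freeze (A : Ana Λ X) (π : Prof Λ) (v : Λ → X) (N : Finset Λ) : Prof Λ where
  lev := π.lev
  act := N
  rd := π.rd
  sg := fun x => if x ∈ π.act ∧ x ∉ N then A.sgv π v x else π.sg x

/-- the active sites go to level `n` -/
def Prof.raise (π : Prof Λ) (n : ℕ) : Prof Λ where
  lev := fun x => if x ∈ π.act then n else π.lev x
  act := π.act
  rd := π.rd
  sg := π.sg

/-- the sites of `U` are read completely -/
def Prof.read (π : Prof Λ) (nf : ℕ) (U : Finset Λ) : Prof Λ where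
  lev := fun x => if x ∈ U then nf else π.lev x
  act := π.act \ U
  rd := π.rd ∪ U
  sg := fun x => if x ∈ U then 0 else π.sg x

namespace Geo

variable (g : Geo Λ) (A : Ana Λ X)

/-- the reading set of the test of the cell `L` with the pattern `P` (and, if `e`, the
neighbourhoods of the old blobs frozen) -/
noncomputable def test (j : ℕ) (S : St Λ) (L : Λ) (P : Finset Λ) (e : Bool) : Finset Λ :=
  ((S.pi.act ∩ g.reg j 5 L) \ g.hood j P) \ (if e then g.nbhd (g.Rf j) S.old else ∅)

open Classical in
/-- the primary bad cells -/
noncomputable def primS (j : ℕ) (S : St Λ) (v : Λ → X) : Finset Λ :=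
  (g.corners j).filter fun L => ∃ P ⊆ g.nearc j L,
    (∃ e : Bool, ¬ A.RG j S (g.test j S L P e) L v) ∨ ¬ A.LK j S L P v

open Classical in
/-- the cells which are bad at the start -/
noncomputable def preS (j : ℕ) (S : St Λ) (v : Λ → X) : Finset Λ :=
  (g.corners j).filter fun L => A.PR j S L v

/-- the zone of a cell: primary badness depends only on the digits there -/
noncomputable def zone (j : ℕ) (L : Λ) : Finset Λ := g.reg j 7 L

open Classical in
/-- cells of super-stage `j` whose zone is in the zone of the cell `L` of super-stage `j + 1` -/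
noncomputable def nb (j : ℕ) (L : Λ) : Finset Λ :=
  (g.corners j).filter fun L' => g.zone j L' ⊆ g.zone (j + 1) L

/-- `2 m` bad cells of super-stage `j` with disjoint zones are near `L` -/
def Many (j : ℕ) (pb : Finset Λ) (L : Λ) : Prop :=
  ∃ T : Finset Λ, T ⊆ g.nb j L ∧ T.card = 2 * g.m ∧
    (∀ a ∈ T, ∀ b ∈ T, a ≠ b → Disjoint (g.zone j a) (g.zone j b)) ∧ T ⊆ pb

open Classical in
/-- the bad cells of super-stage `j` -/
noncomputable def badS : ℕ → St Λ → (Λ → X) → Finset Λ
  | 0, S, v => g.primS A 0 S v ∪ g.preS A 0 S v
  | j + 1, S, v => g.primS A (j + 1) S v ∪ (g.preS A (j + 1) S v ∪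
      (g.corners (j + 1)).filter fun L => g.Many j S.pb L)

/-- the frozen sites of super-stage `j` -/
noncomputable def froz (j : ℕ) (S : St Λ) (v : Λ → X) : Finset Λ := g.hood j (g.badS A j S v)

/-- the reading set of super-stage `j` -/
noncomputable def readN (j : ℕ) (S : St Λ) (v : Λ → X) : Finset Λ := S.pi.act \ g.froz A j S v

/-- two sites of `B` are in the same cluster -/
def Con (r : ℕ) (B : Finset Λ) : Λ → Λ → Prop :=
  Relation.ReflTransGen fun x y => x ∈ B ∧ y ∈ B ∧ g.dist x y ≤ r

open Classical in
/-- the old blobs which are kept -/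
noncomputable def keep (j : ℕ) (S : St Λ) (v : Λ → X) : Finset Λ :=
  S.old.filter fun x => ∃ y, g.Con (g.rho j) S.old x y ∧ ∃ z ∈ g.froz A j S v, g.dist y z ≤ g.D j

/-- the old blobs which are inserted -/
noncomputable def ins (j : ℕ) (S : St Λ) (v : Λ → X) : Finset Λ := S.old \ g.keep A j S v

/-- the profile at the end of the reading of super-stage `j`, before the insertions -/
noncomputable def endP (j : ℕ) (S : St Λ) (v : Λ → X) : Prof Λ :=
  (S.pi.freeze A v (g.readN A j S v)).raise (g.lv (j + 1))

/-- the new hole sites -/
noncomputable def newRd (j : ℕ) (S : St Λ) (v : Λ → X) : Finset Λ :=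
  g.ins A j S v ∪ (g.readN A j S v ∩ g.nbhd (g.R j) (g.ins A j S v))

/-- the profile at the start of super-stage `j + 1` -/
noncomputable def nextP (j : ℕ) (S : St Λ) (v : Λ → X) : Prof Λ :=
  ((g.endP A j S v).freeze A v (g.readN A j S v \ g.nbhd (g.R j) S.old)).read g.nf
    (g.newRd A j S v)

/-- the state at the start of super-stage `j + 1` -/
noncomputable def next (j : ℕ) (S : St Λ) (v : Λ → X) : St Λ where
  pi := g.nextP A j S v
  old := (S.pi.act ∩ g.froz A j S v) ∪ (g.keep A j S v ∪
    ((g.readN A j S v ∩ g.nbhd (g.R j) S.old) \ g.newRd A j S v))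
  pb := g.badS A j S v

/-- the first state -/
def start : St Λ where
  pi := { lev := fun _ => g.lv 0, act := univ, rd := ∅, sg := fun _ => 0 }
  old := ∅
  pb := ∅

/-- the state at the start of super-stage `j` -/
noncomputable def run : ℕ → (Λ → X) → St Λ
  | 0, _ => g.start
  | j + 1, v => g.next A j (run j v) v

end Geo

/-- the same digits at the levels `lev` -/
def Ag (q : ℕ → X → ℤ) (lev : Λ → ℕ) (v v' : Λ → X) : Prop := ∀ x, q (lev x) (v x) = q (lev x) (v' x)

/-- the locality of the analytic input -/
structure Loc (g : Geo Λ) (A : Ana Λ X) : Prop where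
  refine : ∀ n n' a b, n ≤ n' → A.q n' a = A.q n' b → A.q n a = A.q n b
  top : ∀ a b, A.q g.nf a = A.q g.nf b → a = b
  lv_mono : Monotone g.lv
  lv_le : ∀ j, g.lv j ≤ g.nf
  sgv : ∀ π v v', Ag A.q π.lev v v' → A.sgv π v = A.sgv π v'
  RG : ∀ j S N L v v', Ag A.q (fun x => if x ∈ N then g.lv (j + 1) else S.pi.lev x) v v' →
    (A.RG j S N L v ↔ A.RG j S N L v')
  LK : ∀ j S L P v v', Ag A.q (fun x =>
      if x ∈ g.nbhd (g.R j) S.old ∩ g.reg j 6 L then g.nf else
      if x ∈ S.pi.act ∩ g.reg j 5 L then g.lv (j + 1) else S.pi.lev x) v v' →
    (A.LK j S L P v ↔ A.LK j S L P v')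
  PR : ∀ j S L v v', Ag A.q (fun x => if x ∈ S.pi.act then g.lv j else g.nf) v v' →
    (A.PR j S L v ↔ A.PR j S L v')

end Pool.Agent.ANP
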