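import Pool.Agent.ANP.Markov

/-! # ANP: the assembly

`Input`: what the analysis has to deliver.
* `start`: the first state is good.
* `prim`: if the state at the start of super-stage `j` is good, the conditional probability that a
  cell is primary bad is at most `p j`.
* `pre`: product bound for the badness at the start (weak sites; `PR = False` for the uniform law).
* `step`: if the state at the start of super-stage `j` is good then the next state is good (the
  cells which are not bad have passed all tests: `ok_of_not_bad`).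
RESULT: all states are good, and the probability that a cell of `near j` is bad for some `j < J` is
at most `∑ |near j| PP j`.
-/

set_option autoImplicit false

open Finset

namespace Pool.Agent.ANP

variable {Λ X : Type} [Fintype Λ] [DecidableEq Λ] [Fintype X] [DecidableEq X]

namespace Geo

variable {g : Geo Λ} {A : Ana Λ X}

/-- a cell which is not bad has passed all tests -/
theorem ok_of_not_bad {j : ℕ} {S : St Λ} {v : Λ → X} {L : Λ} (hc : L ∈ g.corners j)
    (h : L ∉ g.badS A j S v) {P : Finset Λ} (hP : P ⊆ g.nearc j L) :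
    (∀ e, A.RG j S (g.test j S L P e) L v) ∧ A.LK j S L P v := by
  classical
  have h1 : L ∉ g.primS A j S v := by
    intro h2
    cases j with
    | zero => exact h (mem_union_left _ h2)
    | succ j => exact h ((mem_badS_succ j S v L).2 (Or.inl h2))
  unfold primS at h1
  rw [mem_filter, not_and] at h1
  have h2 := h1 hc
  push_neg at h2
  exact h2 P hP

/-- a cell which is not bad is not bad at the start -/
theorem pr_of_not_bad {j : ℕ} {S : St Λ} {v : Λ → X} {L : Λ} (hc : L ∈ g.corners j)
    (h : L ∉ g.badS A j S v) : ¬ A.PR j S L v := by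
  classical
  intro h2
  have h3 : L ∈ g.preS A j S v := mem_filter.2 ⟨hc, h2⟩
  cases j with
  | zero => exact h (mem_union_right _ h3)
  | succ j => exact h ((mem_badS_succ j S v L).2 (Or.inr (Or.inl h3)))

/-- a cell which is not bad has few bad cells of the previous super-stage in its zone -/
theorem few_of_not_bad {j : ℕ} {S : St Λ} {v : Λ → X} {L : Λ} (hc : L ∈ g.corners (j + 1))
    (h : L ∉ g.badS A (j + 1) S v) : ¬ g.Many j S.pb L := fun h2 =>
  h ((mem_badS_succ j S v L).2 (Or.inr (Or.inr ⟨hc, h2⟩)))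

/-- the analytic input -/
structure Input (g : Geo Λ) (A : Ana Λ X) (w : Λ → X → ℝ) (J : ℕ)
    (Gd : ℕ → St Λ → (Λ → X) → Prop) (p s : ℕ → ℝ) : Prop where
  start : ∀ v, Gd 0 g.start v
  prim : ∀ j < J, ∀ v, Gd j (g.run A j v) v → ∀ L ∈ g.corners j,
    Pr w ({u | L ∈ g.primS A j (g.run A j v) u} ∩ g.cls A j v) ≤ p j * Pr w (g.cls A j v)
  pre : ∀ j < J, ∀ T ⊆ g.corners j, (∀ a ∈ T, ∀ b ∈ T, a ≠ b → Disjoint (g.zone j a) (g.zone j b)) →
    Pr w {v | ∀ L ∈ T, A.PR j (g.run A j v) L v} ≤ (s j ^ 2) ^ T.card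
  step : ∀ j < J, ∀ v, Gd j (g.run A j v) v → Gd (j + 1) (g.run A (j + 1) v) v

theorem all_good {w : Λ → X → ℝ} {J : ℕ} {Gd : ℕ → St Λ → (Λ → X) → Prop} {p s : ℕ → ℝ}
    (hI : Input g A w J Gd p s) (v : Λ → X) {j : ℕ} (hj : j ≤ J) : Gd j (g.run A j v) v := by
  induction j with
  | zero => exact hI.start v
  | succ j ih => exact hI.step j hj v (ih (Nat.le_of_succ_le hj))

/-- the probability that some cell of `near j`, `j < J`, is bad -/
theorem prob_le {w : Λ → X → ℝ} {J : ℕ} {Gd : ℕ → St Λ → (Λ → X) → Prop} {p s n : ℕ → ℝ}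
    (hI : Input g A w J Gd p s) (hw : IsLaw w) (hL : Loc g A) (hd : ∀ x, g.dist x x = 0)
    (hp0 : ∀ j, 0 ≤ p j) (hs0 : ∀ j, 0 ≤ s j) (hn0 : ∀ j, 0 ≤ n j)
    (hn : ∀ j L, ((g.nb j L).card : ℝ) ≤ n j) (near : ℕ → Finset Λ) :
    Pr w {v | ∃ j < J, ∃ L ∈ near j, L ∈ g.badS A j (g.run A j v) v} ≤
      ∑ j ∈ range J, ((near j).card : ℝ) * PP p s n g.m j := by
  classical
  have hR := rules hL hd
  refine le_trans (Pr_mono hw ?_) ((g.alg A).Pr_near_le hw hR p s n hp0 hs0 hn0 J ?_ ?_
    (fun j L => hn j L) near)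
  · rintro v ⟨j, hj, L, hL, h⟩
    exact ⟨j, hj, L, hL, bad_of_badS j v L h⟩
  · intro j hj L v
    by_cases hc : L ∈ g.corners j
    · refine le_trans (Pr_mono hw ?_) (hI.prim j hj v (all_good hI v hj.le) L hc)
      rintro u ⟨h1, h2⟩
      refine ⟨?_, h2⟩
      have h3 : L ∈ g.primS A j (g.run A j u) u := h1
      rw [run_cls hL j v u h2] at h3
      exact h3
    · have h1 : (g.alg A).prim j L ∩ (g.alg A).cls j v = ∅ := by
        ext u
        simp only [Set.mem_inter_iff, Set.mem_empty_iff_false, iff_false, not_and]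
        intro h2 _
        exact hc (mem_filter.1 (show L ∈ g.primS A j (g.run A j u) u from h2)).1
      rw [h1, Pr_empty]
      exact mul_nonneg (hp0 j) (Pr_nonneg hw _)
  · intro j hj T hT
    by_cases hc : T ⊆ g.corners j
    · refine le_trans (Pr_mono hw ?_) (hI.pre j hj T hc hT)
      intro v hv L hL
      exact (mem_filter.1 (show L ∈ g.preS A j (g.run A j v) v from hv L hL)).2
    · have h1 : {v | ∀ L ∈ T, v ∈ (g.alg A).pre j L} = ∅ := by
        ext v
        simp only [Set.mem_setOf_eq, Set.mem_empty_iff_false, iff_false]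
        intro h
        refine hc fun L hL => ?_
        exact (mem_filter.1 (show L ∈ g.preS A j (g.run A j v) v from h L hL)).1
      rw [h1, Pr_empty]
      positivity

end Geo

end Pool.Agent.ANP
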