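import Pool.Agent.ANP.Alg

/-! # ANP: the algorithm satisfies the rules of the abstract recursion (domain Markov property) -/

set_option autoImplicit false

open Finset

namespace Pool.Agent.ANP

variable {Λ X : Type} [Fintype Λ] [DecidableEq Λ] [Fintype X] [DecidableEq X]

namespace Geo

variable (g : Geo Λ) (A : Ana Λ X)

/-- the algorithm as an abstract algorithm -/
noncomputable def alg : Alg Λ X where
  q j := A.q (g.lv j)
  Cell _ := Λ
  zone {j} L := g.zone j L
  nb {j} L := g.nb j L
  act j v := (g.run A j v).pi.act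
  prim j L := {v | L ∈ g.primS A j (g.run A j v) v}
  pre j L := {v | L ∈ g.preS A j (g.run A j v) v}
  m := g.m

/-- the class of `v` at the start of super-stage `j` -/
noncomputable def cls (j : ℕ) (v : Λ → X) : Set (Λ → X) :=
  Cl (A.q (g.lv j)) (g.run A j v).pi.act v

theorem alg_cls (j : ℕ) (v : Λ → X) : (g.alg A).cls j v = g.cls A j v := rfl

variable {g A}

theorem nbhd_mono {r r' : ℕ} (h : r ≤ r') (B : Finset Λ) : g.nbhd r B ⊆ g.nbhd r' B := by
  classical
  intro x hx
  obtain ⟨-, y, hy, hd⟩ := mem_filter.1 hx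
  exact mem_filter.2 ⟨mem_univ _, y, hy, hd.trans h⟩

theorem reg_mono {j r r' : ℕ} (h : r ≤ r') (c : Λ) : g.reg j r c ⊆ g.reg j r' c :=
  nbhd_mono (Nat.mul_le_mul_right _ h) _

theorem nextP_act (j : ℕ) (S : St Λ) (v : Λ → X) : (g.nextP A j S v).act =
    (g.readN A j S v \ g.nbhd (g.R j) S.old) \ g.newRd A j S v := rfl

theorem nextP_lev (j : ℕ) (S : St Λ) (v : Λ → X) (x : Λ) : (g.nextP A j S v).lev x =
    if x ∈ g.newRd A j S v then g.nf else
      if x ∈ g.readN A j S v then g.lv (j + 1) else S.pi.lev x := rfl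

theorem endP_lev (j : ℕ) (S : St Λ) (v : Λ → X) (x : Λ) : (g.endP A j S v).lev x =
    if x ∈ g.readN A j S v then g.lv (j + 1) else S.pi.lev x := rfl

theorem run_succ (j : ℕ) (v : Λ → X) : g.run A (j + 1) v = g.next A j (g.run A j v) v := rfl

theorem act_mem {j : ℕ} {v : Λ → X} {x : Λ} (h : x ∈ (g.run A (j + 1) v).pi.act) :
    x ∈ g.readN A j (g.run A j v) v ∧ x ∉ g.nbhd (g.R j) (g.run A j v).old ∧
      x ∉ g.newRd A j (g.run A j v) v := by
  have h1 : x ∈ (g.readN A j (g.run A j v) v \ g.nbhd (g.R j) (g.run A j v).old) \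
      g.newRd A j (g.run A j v) v := h
  rw [mem_sdiff, mem_sdiff] at h1
  exact ⟨h1.1.1, h1.1.2, h1.2⟩

theorem act_anti (j : ℕ) (v : Λ → X) : (g.run A (j + 1) v).pi.act ⊆ (g.run A j v).pi.act := by
  intro x hx
  exact (mem_sdiff.1 (act_mem hx).1).1

/-- the new active sites are not in the `R`-neighbourhood of the old blobs -/
theorem act_succ (j : ℕ) (v : Λ → X) : ∀ x ∈ (g.run A (j + 1) v).pi.act,
    x ∉ g.nbhd (g.R j) (g.run A j v).old := fun _ hx => (act_mem hx).2.1

/-- levels of the active sites -/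
theorem lev_act (j : ℕ) (v : Λ → X) : ∀ x ∈ (g.run A j v).pi.act,
    (g.run A j v).pi.lev x = g.lv j := by
  intro x hx
  cases j with
  | zero => rfl
  | succ j =>
    obtain ⟨h1, -, h3⟩ := act_mem hx
    have h4 : (g.run A (j + 1) v).pi.lev x = (g.nextP A j (g.run A j v) v).lev x := rfl
    rw [h4, nextP_lev, if_neg h3, if_pos h1]

/-- levels are at most the last level -/
theorem lev_le (hL : Loc g A) (j : ℕ) (v : Λ → X) (x : Λ) :
    (g.run A j v).pi.lev x ≤ g.nf := by
  induction j with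
  | zero => exact hL.lv_le 0
  | succ j ih =>
    have h4 : (g.run A (j + 1) v).pi.lev x = (g.nextP A j (g.run A j v) v).lev x := rfl
    rw [h4, nextP_lev]
    split_ifs
    exacts [le_rfl, hL.lv_le _, ih]

/-- agreement of all levels which are at most `n` on `B` and arbitrary off `B` -/
theorem ag_of_cl (hL : Loc g A) {n : ℕ} {B : Finset Λ} {v v' : Λ → X}
    (h : v' ∈ Cl (A.q n) B v) {lev : Λ → ℕ} (hl : ∀ x ∈ B, lev x ≤ n) : Ag A.q lev v v' := by
  intro x
  by_cases hx : x ∈ B
  · exact hL.refine _ _ _ _ (hl x hx) (h.1 x hx).symm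
  · rw [h.2 x hx]

theorem cls_of_cl (hL : Loc g A) {j : ℕ} {v v' : Λ → X}
    (h : v' ∈ Cl (A.q (g.lv (j + 1))) (g.run A (j + 1) v).pi.act v) : v' ∈ g.cls A j v := by
  refine ⟨fun x hx => ?_, fun x hx => ?_⟩
  · by_cases h1 : x ∈ (g.run A (j + 1) v).pi.act
    · exact hL.refine _ _ _ _ (hL.lv_mono (Nat.le_succ j)) (h.1 x h1)
    · rw [h.2 x h1]
  · exact h.2 x fun h1 => hx (act_anti j v h1)

/-- the decisions of super-stage `j` are functions of the class at the start of `j + 1` -/
theorem prim_eq (hL : Loc g A) (j : ℕ) (v v' : Λ → X)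
    (h : v' ∈ Cl (A.q (g.lv (j + 1))) (g.run A (j + 1) v).pi.act v) :
    g.primS A j (g.run A j v) v' = g.primS A j (g.run A j v) v := by
  classical
  have hle := hL.lv_mono (Nat.le_succ j)
  have hlev : ∀ x ∈ (g.run A (j + 1) v).pi.act, (g.run A j v).pi.lev x = g.lv j :=
    fun x hx => lev_act j v x (act_anti j v hx)
  have h1 : ∀ N L, A.RG j (g.run A j v) N L v ↔ A.RG j (g.run A j v) N L v' := by
    intro N L
    refine hL.RG j _ N L v v' (ag_of_cl hL h fun x hx => ?_)
    split_ifs
    · exact le_rfl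
    · rw [hlev x hx]
      exact hle
  have h2 : ∀ L P, A.LK j (g.run A j v) L P v ↔ A.LK j (g.run A j v) L P v' := by
    intro L P
    refine hL.LK j _ L P v v' (ag_of_cl hL h fun x hx => ?_)
    rw [if_neg fun h' => act_succ j v x hx (mem_inter.1 h').1]
    split_ifs
    · exact le_rfl
    · rw [hlev x hx]
      exact hle
  unfold primS
  simp only [h1, h2]

theorem pre_eq (hL : Loc g A) (j : ℕ) (v v' : Λ → X) (h : v' ∈ g.cls A j v) :
    g.preS A j (g.run A j v) v' = g.preS A j (g.run A j v) v := by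
  classical
  have h1 : ∀ L, A.PR j (g.run A j v) L v ↔ A.PR j (g.run A j v) L v' := by
    intro L
    refine hL.PR j _ L v v' (ag_of_cl hL h fun x hx => ?_)
    rw [if_pos hx]
  unfold preS
  simp only [h1]

theorem badS_zero (S : St Λ) (v : Λ → X) :
    g.badS A 0 S v = g.primS A 0 S v ∪ g.preS A 0 S v := rfl

theorem mem_badS_succ (j : ℕ) (S : St Λ) (v : Λ → X) (L : Λ) :
    L ∈ g.badS A (j + 1) S v ↔ L ∈ g.primS A (j + 1) S v ∨ L ∈ g.preS A (j + 1) S v ∨
      (L ∈ g.corners (j + 1) ∧ g.Many j S.pb L) := by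
  classical
  unfold badS
  rw [mem_union, mem_union, mem_filter]

theorem badS_eq (hL : Loc g A) (j : ℕ) (v v' : Λ → X)
    (h : v' ∈ Cl (A.q (g.lv (j + 1))) (g.run A (j + 1) v).pi.act v) :
    g.badS A j (g.run A j v) v' = g.badS A j (g.run A j v) v := by
  have h1 := prim_eq hL j v v' h
  have h2 := pre_eq hL j v v' (cls_of_cl hL h)
  cases j with
  | zero => rw [badS_zero, badS_zero, h1, h2]
  | succ j =>
    ext L
    rw [mem_badS_succ, mem_badS_succ, h1, h2]

theorem next_eq (hL : Loc g A) (j : ℕ) (v v' : Λ → X)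
    (h : v' ∈ Cl (A.q (g.lv (j + 1))) (g.run A (j + 1) v).pi.act v) :
    g.next A j (g.run A j v) v' = g.next A j (g.run A j v) v := by
  have hle := hL.lv_mono (Nat.le_succ j)
  have h0 := badS_eq hL j v v' h
  have hfr : g.froz A j (g.run A j v) v' = g.froz A j (g.run A j v) v := by
    unfold froz
    rw [h0]
  have hrn : g.readN A j (g.run A j v) v' = g.readN A j (g.run A j v) v := by
    unfold readN
    rw [hfr]
  have hkp : g.keep A j (g.run A j v) v' = g.keep A j (g.run A j v) v := by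
    unfold keep
    rw [hfr]
  have hin : g.ins A j (g.run A j v) v' = g.ins A j (g.run A j v) v := by
    unfold ins
    rw [hkp]
  have hnr : g.newRd A j (g.run A j v) v' = g.newRd A j (g.run A j v) v := by
    unfold newRd
    rw [hin, hrn]
  have hs1 : A.sgv (g.run A j v).pi v' = A.sgv (g.run A j v).pi v := by
    refine (hL.sgv _ v v' (ag_of_cl hL h fun x hx => ?_)).symm
    rw [lev_act j v x (act_anti j v hx)]
    exact hle
  have hep : g.endP A j (g.run A j v) v' = g.endP A j (g.run A j v) v := by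
    unfold endP Prof.freeze
    rw [hrn, hs1]
  have hs2 : A.sgv (g.endP A j (g.run A j v) v) v' = A.sgv (g.endP A j (g.run A j v) v) v := by
    refine (hL.sgv _ v v' (ag_of_cl hL h fun x hx => ?_)).symm
    rw [endP_lev, if_pos (act_mem hx).1]
  have hnp : g.nextP A j (g.run A j v) v' = g.nextP A j (g.run A j v) v := by
    unfold nextP
    rw [hep, hrn, hnr]
    unfold Prof.freeze
    rw [hs2]
  unfold next
  rw [hnp, hfr, hkp, hrn, hnr, h0]

/-- the state is a function of the class -/
theorem run_cls (hL : Loc g A) (j : ℕ) (v v' : Λ → X) (h : v' ∈ g.cls A j v) :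
    g.run A j v' = g.run A j v := by
  induction j with
  | zero => rfl
  | succ j ih =>
    have h1 := ih (cls_of_cl hL h)
    rw [run_succ, run_succ, h1]
    exact next_eq hL j v v' h

/-- the primary badness depends inside a class only on the zone -/
theorem prim_loc (hL : Loc g A) (j : ℕ) (L : Λ) (v : Λ → X) :
    DependsOnIn (g.cls A j v) (g.zone j L) {v | L ∈ g.primS A j (g.run A j v) v} := by
  classical
  intro v1 h1 v2 h2 hz
  have e1 := run_cls hL j v v1 h1
  have e2 := run_cls hL j v v2 h2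
  have hbase : ∀ x, A.q ((g.run A j v).pi.lev x) (v1 x) = A.q ((g.run A j v).pi.lev x) (v2 x) := by
    intro x
    by_cases hx : x ∈ (g.run A j v).pi.act
    · rw [lev_act j v x hx]
      exact (h1.1 x hx).trans (h2.1 x hx).symm
    · rw [h1.2 x hx, h2.2 x hx]
  have hz' : ∀ r ≤ 7, ∀ x ∈ g.reg j r L, v1 x = v2 x := fun r hr x hx => hz x (reg_mono hr L hx)
  have hRG : ∀ P e, A.RG j (g.run A j v) (g.test j (g.run A j v) L P e) L v1 ↔
      A.RG j (g.run A j v) (g.test j (g.run A j v) L P e) L v2 := by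
    intro P e
    refine hL.RG j _ _ L v1 v2 fun x => ?_
    by_cases hx : x ∈ g.test j (g.run A j v) L P e
    · have h3 : x ∈ g.reg j 5 L := by
        have h4 := (mem_sdiff.1 hx).1
        exact (mem_inter.1 (mem_sdiff.1 h4).1).2
      rw [hz' 5 (by norm_num) x h3]
    · beta_reduce
      rw [if_neg hx]
      exact hbase x
  have hLK : ∀ P, A.LK j (g.run A j v) L P v1 ↔ A.LK j (g.run A j v) L P v2 := by
    intro P
    refine hL.LK j _ L P v1 v2 fun x => ?_
    by_cases hx : x ∈ g.nbhd (g.R j) (g.run A j v).old ∩ g.reg j 6 L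
    · rw [hz' 6 (by norm_num) x (mem_inter.1 hx).2]
    · beta_reduce
      rw [if_neg hx]
      by_cases hx' : x ∈ (g.run A j v).pi.act ∩ g.reg j 5 L
      · rw [hz' 5 (by norm_num) x (mem_inter.1 hx').2]
      · rw [if_neg hx']
        exact hbase x
  show L ∈ g.primS A j (g.run A j v1) v1 ↔ L ∈ g.primS A j (g.run A j v2) v2
  rw [e1, e2]
  unfold primS
  simp only [mem_filter, hRG, hLK]

theorem rules (hL : Loc g A) (hd : ∀ x, g.dist x x = 0) : (g.alg A).Rules where
  refine j a b h := hL.refine _ _ a b (hL.lv_mono (Nat.le_succ j)) h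
  anti j v := act_anti j v
  act_cls j v v' h := by
    have h1 := run_cls hL j v v' h
    show (g.run A j v').pi.act = (g.run A j v).pi.act
    rw [h1]
  past j L v v' h := by
    have h1 := run_cls hL j v v' (cls_of_cl hL h)
    show L ∈ g.primS A j (g.run A j v) v ↔ L ∈ g.primS A j (g.run A j v') v'
    rw [h1, prim_eq hL j v v' h]
  start j L v v' h := by
    have h1 := run_cls hL j v v' h
    show L ∈ g.preS A j (g.run A j v) v ↔ L ∈ g.preS A j (g.run A j v') v'
    rw [h1, pre_eq hL j v v' h]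
  loc j L v := prim_loc hL j L v
  nbz j L L' h := (mem_filter.1 h).2
  zne j L L' h := by
    have h1 := (mem_filter.1 (mem_filter.1 h).1).2
    refine ⟨L', ?_⟩
    show L' ∈ g.nbhd (7 * g.side j) (g.cell j L')
    refine mem_filter.2 ⟨mem_univ _, L', mem_filter.2 ⟨mem_univ _, h1⟩, ?_⟩
    rw [hd]
    exact Nat.zero_le _

/-- concrete bad cells are bad in the abstract sense -/
theorem bad_of_badS (j : ℕ) (v : Λ → X) : ∀ L ∈ g.badS A j (g.run A j v) v,
    v ∈ (g.alg A).bad j L := by
  induction j with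
  | zero =>
    intro L hL
    rcases mem_union.1 hL with h | h
    · exact Or.inl h
    · exact Or.inr h
  | succ j ih =>
    intro L hL
    rcases (mem_badS_succ j _ v L).1 hL with h | h | ⟨-, T, h1, h2, h3, h4⟩
    · exact Or.inl h
    · exact Or.inr (Or.inl h)
    · exact Or.inr (Or.inr ⟨T, h1, h2, h3, fun L' hL' => ih L' (h4 hL')⟩)

end Geo

end Pool.Agent.ANP
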