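import Pool.Agent.ANP.Prob

/-! # ANP: sum over classes, the recursion for the probability of bad cells, the count -/

set_option autoImplicit false

open Finset

namespace Pool.Agent.ANP

variable {Λ X : Type} [Fintype Λ] [DecidableEq Λ] [Fintype X] [DecidableEq X]
variable {w : Λ → X → ℝ}

/-- If `D` is a union of classes and `E` has conditional probability at most `p` in every class
of `D`, then `Pr (E ∩ D) ≤ p * Pr D`. -/
theorem Pr_cls_le (hw : IsLaw w) (q : X → ℤ) (act : (Λ → X) → Finset Λ)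
    (hact : ∀ v, ∀ v' ∈ Cl q (act v) v, act v' = act v) (D E : Set (Λ → X))
    (hD : ∀ v ∈ D, ∀ v' ∈ Cl q (act v) v, v' ∈ D) (p : ℝ)
    (h : ∀ v ∈ D, Pr w (E ∩ Cl q (act v) v) ≤ p * Pr w (Cl q (act v) v)) :
    Pr w (E ∩ D) ≤ p * Pr w D := by
  classical
  -- the class as a finset
  let c : (Λ → X) → Finset (Λ → X) := fun v => univ.filter (fun v' => v' ∈ Cl q (act v) v)
  have hself : ∀ v, v ∈ Cl q (act v) v := fun v => ⟨fun _ _ => rfl, fun _ _ => rfl⟩
  have hc : ∀ v v', v' ∈ Cl q (act v) v → Cl q (act v') v' = Cl q (act v) v := by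
    intro v v' h'
    have ha := hact v v' h'
    ext u
    rw [ha]
    constructor
    · intro hu
      exact ⟨fun x hx => (hu.1 x hx).trans (h'.1 x hx), fun x hx => (hu.2 x hx).trans (h'.2 x hx)⟩
    · intro hu
      exact ⟨fun x hx => (hu.1 x hx).trans (h'.1 x hx).symm,
        fun x hx => (hu.2 x hx).trans (h'.2 x hx).symm⟩
  have key : ∀ E : Set (Λ → X), Pr w (E ∩ D) =
      ∑ s ∈ (univ.filter (fun v => v ∈ D)).image c,
        ∑ v ∈ univ.filter (fun v => v ∈ E ∧ v ∈ s), wt w v := by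
    intro E
    have h1 : Pr w (E ∩ D) = ∑ v ∈ (univ.filter (fun v => v ∈ D)).filter (fun v => v ∈ E),
        wt w v := by
      unfold Pr
      refine sum_congr ?_ fun _ _ => rfl
      ext v
      simp only [mem_filter, mem_univ, true_and, Set.mem_inter_iff]
      exact and_comm
    rw [h1, ← sum_fiberwise_of_maps_to (g := c) (t := (univ.filter (fun v => v ∈ D)).image c)
      fun v hv => mem_image_of_mem _ (mem_filter.1 hv).1]
    refine sum_congr rfl fun s hs => sum_congr ?_ fun _ _ => rfl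
    obtain ⟨u, hu, rfl⟩ := mem_image.1 hs
    have huD : u ∈ D := (mem_filter.1 hu).2
    ext v
    simp only [mem_filter, mem_univ, true_and]
    constructor
    · rintro ⟨⟨h2, h3⟩, h4⟩
      refine ⟨h3, ?_⟩
      rw [← h4]
      exact mem_filter.2 ⟨mem_univ _, hself v⟩
    · rintro ⟨h2, h3⟩
      have h4 : v ∈ Cl q (act u) u := (mem_filter.1 h3).2
      refine ⟨⟨hD u huD v h4, h2⟩, ?_⟩
      simp only [c, hc u v h4]
  have k1 := key E
  have k2 := key Set.univ
  rw [Set.univ_inter] at k2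
  rw [k1, k2, mul_sum]
  refine sum_le_sum fun s hs => ?_
  obtain ⟨u, hu, rfl⟩ := mem_image.1 hs
  have huD : u ∈ D := (mem_filter.1 hu).2
  have h1 := h u huD
  have h2 : Pr w (E ∩ Cl q (act u) u) = ∑ v ∈ univ.filter (fun v => v ∈ E ∧ v ∈ c u), wt w v := by
    unfold Pr
    refine sum_congr ?_ fun _ _ => rfl
    ext v
    simp [c]
  have h3 : Pr w (Cl q (act u) u) =
      ∑ v ∈ univ.filter (fun v => v ∈ (Set.univ : Set (Λ → X)) ∧ v ∈ c u), wt w v := by
    unfold Pr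
    refine sum_congr ?_ fun _ _ => rfl
    ext v
    simp [c]
  refine (le_of_eq h2.symm).trans (h1.trans (le_of_eq ?_))
  rw [h3]
  congr 1
  refine sum_congr ?_ fun _ _ => rfl
  ext v
  simp

theorem le_of_sq_le_sq' {a b : ℝ} (ha : 0 ≤ a) (hb : 0 ≤ b) (h : a * a ≤ b * b) : a ≤ b :=
  by nlinarith [mul_self_le_mul_self_iff ha hb]

/-- the bounds of the recursion -/
def PP (p s n : ℕ → ℝ) (m : ℕ) : ℕ → ℝ
  | 0 => p 0 + s 0
  | j + 1 => p (j + 1) + (s (j + 1) + (n j * PP p s n m j) ^ m)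

theorem PP_nonneg {p s n : ℕ → ℝ} (hp : ∀ j, 0 ≤ p j) (hs : ∀ j, 0 ≤ s j) (hn : ∀ j, 0 ≤ n j)
    (m j : ℕ) : 0 ≤ PP p s n m j := by
  induction j with
  | zero => exact add_nonneg (hp 0) (hs 0)
  | succ j ih => exact add_nonneg (hp _) (add_nonneg (hs _) (pow_nonneg (mul_nonneg (hn j) ih) m))

/-- two families without independence: the square root is lost -/
theorem Pr_two (hw : IsLaw w) {ι : Type} [DecidableEq ι] (Dj : Finset ι → Prop)
    (hDj : ∀ T T' : Finset ι, T' ⊆ T → Dj T → Dj T') (A B : ι → Set (Λ → X)) (a b : ℝ)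
    (ha : 0 ≤ a) (hb : 0 ≤ b)
    (hA : ∀ T, Dj T → Pr w {v | ∀ i ∈ T, v ∈ A i} ≤ (a ^ 2) ^ T.card)
    (hB : ∀ T, Dj T → Pr w {v | ∀ i ∈ T, v ∈ B i} ≤ (b ^ 2) ^ T.card)
    (T : Finset ι) (hT : Dj T) :
    Pr w {v | ∀ i ∈ T, v ∈ A i ∪ B i} ≤ (a + b) ^ T.card := by
  classical
  have hsub : {v | ∀ i ∈ T, v ∈ A i ∪ B i} ⊆
      ⋃ I ∈ T.powerset, ({v | ∀ i ∈ I, v ∈ A i} ∩ {v | ∀ i ∈ T \ I, v ∈ B i}) := by
    intro v hv
    rw [Set.mem_iUnion₂]
    refine ⟨T.filter (fun i => v ∈ A i), mem_powerset.2 (filter_subset _ _), ?_, ?_⟩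
    · intro i hi
      exact (mem_filter.1 hi).2
    · intro i hi
      rw [mem_sdiff, mem_filter] at hi
      rcases hv i hi.1 with h | h
      · exact (hi.2 ⟨hi.1, h⟩).elim
      · exact h
  refine (Pr_mono hw hsub).trans ((Pr_iUnion_le hw _ _).trans ?_)
  have hterm : ∀ I ∈ T.powerset,
      Pr w ({v | ∀ i ∈ I, v ∈ A i} ∩ {v | ∀ i ∈ T \ I, v ∈ B i}) ≤
        a ^ I.card * b ^ (T.card - I.card) := by
    intro I hI
    have hIT := mem_powerset.1 hI
    have h1 := (Pr_mono hw (Set.inter_subset_left (s := {v | ∀ i ∈ I, v ∈ A i})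
      (t := {v | ∀ i ∈ T \ I, v ∈ B i}))).trans (hA I (hDj T I hIT hT))
    have h2 := (Pr_mono hw (Set.inter_subset_right (s := {v | ∀ i ∈ I, v ∈ A i})
      (t := {v | ∀ i ∈ T \ I, v ∈ B i}))).trans (hB (T \ I) (hDj T _ sdiff_subset hT))
    rw [card_sdiff_of_subset hIT] at h2
    set x := Pr w ({v | ∀ i ∈ I, v ∈ A i} ∩ {v | ∀ i ∈ T \ I, v ∈ B i})
    have hx : 0 ≤ x := Pr_nonneg hw _
    have h3 : x * x ≤ (a ^ I.card * b ^ (T.card - I.card)) *
        (a ^ I.card * b ^ (T.card - I.card)) := by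
      calc x * x ≤ (a ^ 2) ^ I.card * (b ^ 2) ^ (T.card - I.card) :=
            mul_le_mul h1 h2 hx (by positivity)
        _ = _ := by
            rw [← pow_mul, ← pow_mul, mul_comm 2, mul_comm 2, pow_mul, pow_mul]
            ring
    exact le_of_sq_le_sq' hx (by positivity) h3
  refine (sum_le_sum hterm).trans ?_
  rw [sum_pow_mul_eq_add_pow]

namespace Alg

variable (G : Alg Λ X)

theorem cls_succ (hG : G.Rules) (j : ℕ) (v : Λ → X) : G.cls (j + 1) v ⊆ G.cls j v := by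
  intro v' h
  refine ⟨fun x hx => ?_, fun x hx => ?_⟩
  · by_cases h1 : x ∈ G.act (j + 1) v
    · exact hG.refine j _ _ (h.1 x h1)
    · rw [h.2 x h1]
  · exact h.2 x fun h1 => hx (hG.anti j v h1)

theorem cls_le (hG : G.Rules) {i j : ℕ} (hij : i ≤ j) (v : Λ → X) : G.cls j v ⊆ G.cls i v := by
  induction j, hij using Nat.le_induction with
  | base => exact subset_rfl
  | succ j _ ih => exact (G.cls_succ hG j v).trans ih

/-- past badness is a function of the class -/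
theorem bad_past (hG : G.Rules) (i : ℕ) (L : G.Cell i) {j : ℕ} (hij : i < j) (v v' : Λ → X)
    (h : v' ∈ G.cls j v) : v ∈ G.bad i L ↔ v' ∈ G.bad i L := by
  induction i generalizing j with
  | zero =>
    have h1 := hG.past 0 L v v' (G.cls_le hG hij v h)
    have h2 := hG.start 0 L v v' (G.cls_le hG (Nat.zero_le j) v h)
    unfold bad
    simp only [Set.mem_union]
    rw [h1, h2]
  | succ i ih =>
    have h1 : v ∈ G.prim (i + 1) L ↔ v' ∈ G.prim (i + 1) L :=
      hG.past (i + 1) L v v' (G.cls_le hG hij v h)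
    have h2 : v ∈ G.pre (i + 1) L ↔ v' ∈ G.pre (i + 1) L :=
      hG.start (i + 1) L v v' (G.cls_le hG hij.le v h)
    unfold bad
    simp only [Set.mem_union, Set.mem_setOf_eq]
    rw [h1, h2]
    refine or_congr_right (or_congr_right (exists_congr fun T => ?_))
    refine and_congr_right fun _ => and_congr_right fun _ => and_congr_right fun _ => ?_
    exact forall₂_congr fun L' _ => ih L' (lt_of_le_of_lt (Nat.le_succ i) hij) h

/-- decomposition into primary bad cells and cells whose badness is decided at the start -/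
theorem Pr_dec (hw : IsLaw w) (hG : G.Rules) (j : ℕ) (past : G.Cell j → Set (Λ → X))
    (hpast : ∀ L v, v ∈ past L → ∀ v' ∈ G.cls j v, v' ∈ past L) (p b : ℝ) (hp0 : 0 ≤ p)
    (hp : ∀ (L : G.Cell j) v, Pr w (G.prim j L ∩ G.cls j v) ≤ p * Pr w (G.cls j v))
    (hb : ∀ T, G.Disj T → Pr w {v | ∀ L ∈ T, v ∈ past L} ≤ b ^ T.card)
    (T : Finset (G.Cell j)) (hT : G.Disj T) :
    Pr w {v | ∀ L ∈ T, v ∈ G.prim j L ∪ past L} ≤ (p + b) ^ T.card := by
  classical
  have hsub : {v | ∀ L ∈ T, v ∈ G.prim j L ∪ past L} ⊆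
      ⋃ I ∈ T.powerset, ({v | ∀ L ∈ T \ I, v ∈ G.prim j L} ∩ {v | ∀ L ∈ I, v ∈ past L}) := by
    intro v hv
    rw [Set.mem_iUnion₂]
    refine ⟨T.filter (fun L => v ∈ past L), mem_powerset.2 (filter_subset _ _), ?_, ?_⟩
    · intro L hL
      rw [mem_sdiff, mem_filter] at hL
      rcases hv L hL.1 with h | h
      · exact h
      · exact (hL.2 ⟨hL.1, h⟩).elim
    · intro L hL
      exact (mem_filter.1 hL).2
  refine (Pr_mono hw hsub).trans ((Pr_iUnion_le hw _ _).trans ?_)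
  have hterm : ∀ I ∈ T.powerset,
      Pr w ({v | ∀ L ∈ T \ I, v ∈ G.prim j L} ∩ {v | ∀ L ∈ I, v ∈ past L}) ≤
        b ^ I.card * p ^ (T.card - I.card) := by
    intro I hI
    have hIT := mem_powerset.1 hI
    have h1 := Pr_cls_le hw (G.q j) (G.act j) (hG.act_cls j)
      {v | ∀ L ∈ I, v ∈ past L} {v | ∀ L ∈ T \ I, v ∈ G.prim j L}
      (fun v hv v' hv' L hL => hpast L v (hv L hL) v' hv')
      (p ^ (T \ I).card)
      fun v _ => Pr_prod_le hw (T \ I) (fun L => G.zone L) (fun L => G.prim j L)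
        p hp0
        (fun L hL L' hL' => hT L (mem_sdiff.1 hL).1 L' (mem_sdiff.1 hL').1)
        (fun L _ => hG.loc j L v) fun L _ => hp L v
    have h2 := hb I fun L hL L' hL' => hT L (hIT hL) L' (hIT hL')
    rw [card_sdiff_of_subset hIT] at h1
    refine h1.trans ?_
    rw [mul_comm]
    exact mul_le_mul_of_nonneg_right h2 (pow_nonneg hp0 _)
  refine (sum_le_sum hterm).trans ?_
  rw [sum_pow_mul_eq_add_pow, add_comm]

/-- The product bound for bad cells with disjoint zones. -/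
theorem Pr_bad_le (hw : IsLaw w) (hG : G.Rules) (p s n : ℕ → ℝ) (hp0 : ∀ j, 0 ≤ p j)
    (hs0 : ∀ j, 0 ≤ s j) (hn0 : ∀ j, 0 ≤ n j)
    (J : ℕ)
    (hp : ∀ j < J, ∀ (L : G.Cell j) v, Pr w (G.prim j L ∩ G.cls j v) ≤ p j * Pr w (G.cls j v))
    (hs : ∀ j < J, ∀ T : Finset (G.Cell j), G.Disj T →
      Pr w {v | ∀ L ∈ T, v ∈ G.pre j L} ≤ (s j ^ 2) ^ T.card)
    (hn : ∀ j (L : G.Cell (j + 1)), ((G.nb L).card : ℝ) ≤ n j)
    (j : ℕ) (hj : j < J) (T : Finset (G.Cell j)) (hT : G.Disj T) :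
    Pr w {v | ∀ L ∈ T, v ∈ G.bad j L} ≤ PP p s n G.m j ^ T.card := by
  classical
  have hsub : ∀ j (T T' : Finset (G.Cell j)), T' ⊆ T → G.Disj T → G.Disj T' :=
    fun j T T' h hT L hL L' hL' => hT L (h hL) L' (h hL')
  induction j with
  | zero =>
    refine G.Pr_dec hw hG 0 (G.pre 0) (fun L v hv v' hv' => (hG.start 0 L v v' hv').1 hv) (p 0)
      (s 0) (hp0 0) (hp 0 hj) (fun I hI => ?_) T hT
    have h1 := hs 0 hj I hI
    have h2 : Pr w {v | ∀ L ∈ I, v ∈ G.pre 0 L} ≤ 1 := by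
      rw [← Pr_univ hw]
      exact Pr_mono hw (Set.subset_univ _)
    set x := Pr w {v | ∀ L ∈ I, v ∈ G.pre 0 L}
    have hx : 0 ≤ x := Pr_nonneg hw _
    refine le_of_sq_le_sq' hx (pow_nonneg (hs0 0) _) ?_
    calc x * x ≤ (s 0 ^ 2) ^ I.card * 1 := mul_le_mul h1 h2 hx (by positivity)
      _ = _ := by rw [← pow_mul, mul_comm 2, pow_mul]; ring
  | succ j ih =>
    -- the event that `2 m` disjoint cells near `L` were bad
    let B2 : G.Cell (j + 1) → Set (Λ → X) := fun L =>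
      {v | ∃ T : Finset (G.Cell j), T ⊆ G.nb L ∧ T.card = 2 * G.m ∧ G.Disj T ∧
        ∀ L' ∈ T, v ∈ G.bad j L'}
    -- the product bound for `B2`
    have hB2 : ∀ I : Finset (G.Cell (j + 1)), G.Disj I →
        Pr w {v | ∀ L ∈ I, v ∈ B2 L} ≤ (((n j * PP p s n G.m j) ^ G.m) ^ 2) ^ I.card := by
      intro I hI
      -- choices of one set for every `L ∈ I`
      let ch : G.Cell (j + 1) → Finset (Finset (G.Cell j)) := fun L =>
        ((G.nb L).powersetCard (2 * G.m)).filter (fun T => G.Disj T)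
      have hsub : {v | ∀ L ∈ I, v ∈ B2 L} ⊆
          ⋃ f ∈ I.pi ch, {v | ∀ L' ∈ I.attach.biUnion (fun L => f L.1 L.2), v ∈ G.bad j L'} := by
        intro v hv
        have h1 : ∀ L ∈ I, ∃ T, T ∈ ch L ∧ ∀ L' ∈ T, v ∈ G.bad j L' := by
          intro L hL
          obtain ⟨T, h1, h2, h3, h4⟩ := hv L hL
          exact ⟨T, mem_filter.2 ⟨mem_powersetCard.2 ⟨h1, h2⟩, h3⟩, h4⟩
        choose f hf hf' using h1
        rw [Set.mem_iUnion₂]
        refine ⟨f, mem_pi.2 hf, ?_⟩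
        intro L' hL'
        obtain ⟨L, -, h2⟩ := mem_biUnion.1 hL'
        exact hf' L.1 L.2 L' h2
      refine (Pr_mono hw hsub).trans ((Pr_iUnion_le hw _ _).trans ?_)
      have hterm : ∀ f ∈ I.pi ch,
          Pr w {v | ∀ L' ∈ I.attach.biUnion (fun L => f L.1 L.2), v ∈ G.bad j L'} ≤
            PP p s n G.m j ^ (2 * G.m * I.card) := by
        intro f hf
        have hf1 : ∀ L hL, f L hL ⊆ G.nb L ∧ (f L hL).card = 2 * G.m ∧ G.Disj (f L hL) := by
          intro L hL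
          have := mem_filter.1 (mem_pi.1 hf L hL)
          exact ⟨(mem_powersetCard.1 this.1).1, (mem_powersetCard.1 this.1).2, this.2⟩
        -- zones of cells in different families are disjoint
        have hzz : ∀ L hL L1 hL1, L ≠ L1 → ∀ a ∈ f L hL, ∀ b ∈ f L1 hL1,
            Disjoint (G.zone a) (G.zone b) := by
          intro L hL L1 hL1 hne a ha b hb
          exact Disjoint.mono (hG.nbz j L a ((hf1 L hL).1 ha)) (hG.nbz j L1 b ((hf1 L1 hL1).1 hb))
            (hI L hL L1 hL1 hne)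
        have hcard : (I.attach.biUnion (fun L => f L.1 L.2)).card = 2 * G.m * I.card := by
          rw [card_biUnion]
          · rw [sum_congr rfl fun L _ => (hf1 L.1 L.2).2.1, sum_const, card_attach, smul_eq_mul,
              mul_comm]
          · intro L _ L1 _ hne
            refine disjoint_left.2 fun a ha hb => ?_
            have h1 := hzz L.1 L.2 L1.1 L1.2 (fun h => hne (Subtype.ext h)) a ha a hb
            obtain ⟨x, hx⟩ := hG.zne j L.1 a ((hf1 L.1 L.2).1 ha)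
            exact disjoint_left.1 h1 hx hx
        have hdis : G.Disj (I.attach.biUnion (fun L => f L.1 L.2)) := by
          intro a ha b hb hab
          obtain ⟨L, -, h1⟩ := mem_biUnion.1 ha
          obtain ⟨L1, -, h2⟩ := mem_biUnion.1 hb
          by_cases h : L = L1
          · subst h
            exact (hf1 L.1 L.2).2.2 a h1 b h2 hab
          · exact hzz L.1 L.2 L1.1 L1.2 (fun h' => h (Subtype.ext h')) a h1 b h2
        have h1 := ih (lt_trans (Nat.lt_succ_self j) hj) _ hdis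
        rwa [hcard] at h1
      refine (sum_le_sum hterm).trans ?_
      rw [sum_const, card_pi, nsmul_eq_mul]
      have hP := PP_nonneg hp0 hs0 hn0 G.m j
      have hcb : ((∏ L ∈ I, (ch L).card : ℕ) : ℝ) ≤ (n j ^ (2 * G.m)) ^ I.card := by
        push_cast
        refine (prod_le_prod (fun _ _ => Nat.cast_nonneg _) fun L _ => ?_).trans
          (prod_const _).le
        have h1 : (ch L).card ≤ (G.nb L).card ^ (2 * G.m) :=
          (card_filter_le _ _).trans ((card_powersetCard _ _).le.trans (Nat.choose_le_pow _ _))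
        calc ((ch L).card : ℝ) ≤ (((G.nb L).card ^ (2 * G.m) : ℕ) : ℝ) := by exact_mod_cast h1
          _ = ((G.nb L).card : ℝ) ^ (2 * G.m) := by push_cast; rfl
          _ ≤ _ := pow_le_pow_left₀ (Nat.cast_nonneg _) (hn j L) _
      calc ((∏ L ∈ I, (ch L).card : ℕ) : ℝ) * PP p s n G.m j ^ (2 * G.m * I.card)
          ≤ (n j ^ (2 * G.m)) ^ I.card * PP p s n G.m j ^ (2 * G.m * I.card) :=
            mul_le_mul_of_nonneg_right hcb (pow_nonneg hP _)
        _ = (((n j * PP p s n G.m j) ^ G.m) ^ 2) ^ I.card := by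
            rw [← pow_mul (n j * PP p s n G.m j) G.m 2, mul_comm G.m 2, mul_pow, mul_pow,
              pow_mul (PP p s n G.m j)]
    refine G.Pr_dec hw hG (j + 1) (fun L => G.pre (j + 1) L ∪ B2 L) ?_ (p (j + 1))
      (s (j + 1) + (n j * PP p s n G.m j) ^ G.m) (hp0 _) (hp (j + 1) hj) (fun I hI => ?_) T hT
    · intro L v hv v' hv'
      rcases hv with hv | hv
      · exact Or.inl ((hG.start (j + 1) L v v' hv').1 hv)
      · obtain ⟨T', h1, h2, h3, h4⟩ := hv
        exact Or.inr ⟨T', h1, h2, h3, fun L' hL' =>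
          (G.bad_past hG j L' (Nat.lt_succ_self j) v v' hv').1 (h4 L' hL')⟩
    · exact Pr_two hw G.Disj (hsub (j + 1)) (G.pre (j + 1)) B2 (s (j + 1))
        ((n j * PP p s n G.m j) ^ G.m) (hs0 _)
        (pow_nonneg (mul_nonneg (hn0 _) (PP_nonneg hp0 hs0 hn0 _ _)) _) (hs (j + 1) hj) hB2 I hI

/-- The count: the probability that some cell of `near j`, `j < J`, is bad. -/
theorem Pr_near_le (hw : IsLaw w) (hG : G.Rules) (p s n : ℕ → ℝ) (hp0 : ∀ j, 0 ≤ p j)
    (hs0 : ∀ j, 0 ≤ s j) (hn0 : ∀ j, 0 ≤ n j)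
    (J : ℕ)
    (hp : ∀ j < J, ∀ (L : G.Cell j) v, Pr w (G.prim j L ∩ G.cls j v) ≤ p j * Pr w (G.cls j v))
    (hs : ∀ j < J, ∀ T : Finset (G.Cell j), G.Disj T →
      Pr w {v | ∀ L ∈ T, v ∈ G.pre j L} ≤ (s j ^ 2) ^ T.card)
    (hn : ∀ j (L : G.Cell (j + 1)), ((G.nb L).card : ℝ) ≤ n j)
    (near : ∀ j, Finset (G.Cell j)) :
    Pr w {v | ∃ j < J, ∃ L ∈ near j, v ∈ G.bad j L} ≤
      ∑ j ∈ range J, ((near j).card : ℝ) * PP p s n G.m j := by
  classical
  have hsub : {v | ∃ j < J, ∃ L ∈ near j, v ∈ G.bad j L} ⊆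
      ⋃ j ∈ range J, ⋃ L ∈ near j, {v | v ∈ G.bad j L} := by
    rintro v ⟨j, hj, L, hL, h⟩
    simp only [Set.mem_iUnion]
    exact ⟨j, mem_range.2 hj, L, hL, h⟩
  refine (Pr_mono hw hsub).trans ((Pr_iUnion_le hw _ _).trans (sum_le_sum fun j hj => ?_))
  refine (Pr_iUnion_le hw _ _).trans ?_
  have h1 : ∀ L ∈ near j, Pr w {v | v ∈ G.bad j L} ≤ PP p s n G.m j := by
    intro L _
    have h2 := G.Pr_bad_le hw hG p s n hp0 hs0 hn0 J hp hs hn j (mem_range.1 hj) {L} (by
      intro a ha b hb hab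
      rw [mem_singleton] at ha hb
      exact (hab (ha.trans hb.symm)).elim)
    rw [card_singleton, pow_one] at h2
    refine (Pr_mono hw ?_).trans h2
    intro v hv L' hL'
    rw [mem_singleton] at hL'
    rw [hL']
    exact hv
  refine (sum_le_sum h1).trans ?_
  rw [sum_const, nsmul_eq_mul]

end Alg

end Pool.Agent.ANP
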