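import Pool.Agent.ANP.Rec

/-! # ANP: classes by level functions, union bound over a run, conditional laws

`Ag q lev v v'`: `v'` and `v` have the same digits of level `lev x` at every site `x`.
`LCl q lev v` is the class of `v`.  A run has deterministic level functions
`lev 0 ≤ lev 1 ≤ ... ≤ lev T` (colour steps of a fixed reading set).  -/

set_option autoImplicit false

open Finset

namespace Pool.Agent.ANP

variable {Λ X : Type} [Fintype Λ] [DecidableEq Λ] [Fintype X] [DecidableEq X]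
variable {w : Λ → X → ℝ}

set_option linter.unusedSectionVars false
set_option linter.unusedVariables false

/-- the same digits of level `lev x` at every site `x` -/
def Ag (q : ℕ → X → ℤ) (lev : Λ → ℕ) (v v' : Λ → X) : Prop :=
  ∀ x, q (lev x) (v' x) = q (lev x) (v x)

/-- the class of `v` for the level function `lev` -/
def LCl (q : ℕ → X → ℤ) (lev : Λ → ℕ) (v : Λ → X) : Set (Λ → X) := {v' | Ag q lev v v'}

omit [Fintype Λ] [DecidableEq Λ] [Fintype X] [DecidableEq X] in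
theorem LCl_self (q : ℕ → X → ℤ) (lev : Λ → ℕ) (v : Λ → X) : v ∈ LCl q lev v := fun _ => rfl

omit [Fintype Λ] [DecidableEq Λ] [Fintype X] [DecidableEq X] in
theorem LCl_eq {q : ℕ → X → ℤ} {lev : Λ → ℕ} {v v' : Λ → X} (h : v' ∈ LCl q lev v) :
    LCl q lev v' = LCl q lev v := by
  ext u
  exact ⟨fun hu x => (hu x).trans (h x), fun hu x => (hu x).trans (h x).symm⟩

omit [Fintype Λ] [DecidableEq Λ] [Fintype X] [DecidableEq X] in
/-- the digits refine each other -/
theorem digit_le {q : ℕ → X → ℤ} (hq : ∀ n a b, q (n + 1) a = q (n + 1) b → q n a = q n b)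
    {m n : ℕ} (hmn : m ≤ n) {a b : X} (h : q n a = q n b) : q m a = q m b := by
  induction n, hmn using Nat.le_induction with
  | base => exact h
  | succ n _ ih => exact ih (hq n a b h)

omit [Fintype Λ] [DecidableEq Λ] [Fintype X] [DecidableEq X] in
/-- a finer class is contained in the coarser one -/
theorem LCl_anti {q : ℕ → X → ℤ} (hq : ∀ n a b, q (n + 1) a = q (n + 1) b → q n a = q n b)
    {lev lev' : Λ → ℕ} (h : ∀ x, lev x ≤ lev' x) (v : Λ → X) : LCl q lev' v ⊆ LCl q lev v :=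
  fun _ hu x => digit_le hq (h x) (hu x)

omit [Fintype Λ] [Fintype X] [DecidableEq X] in
/-- The classes of `Defs` are classes by level functions: level `n` on `A`, top level off `A`. -/
theorem Cl_eq_LCl {q : ℕ → X → ℤ} {top : ℕ} (htop : Function.Injective (q top)) (n : ℕ)
    (A : Finset Λ) (v : Λ → X) :
    Cl (q n) A v = LCl q (fun x => if x ∈ A then n else top) v := by
  ext u
  constructor
  · intro hu x
    by_cases hx : x ∈ A
    · simp only [hx, if_true]
      exact hu.1 x hx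
    · simp only [hx, if_false]
      rw [hu.2 x hx]
  · intro hu
    constructor
    · intro x hx
      have := hu x
      simpa only [hx, if_true] using this
    · intro x hx
      have := hu x
      simp only [hx, if_false] at this
      exact htop this

/-- General partition lemma: `cls` is a partition, `D` a union of its classes, and `E` has
conditional probability at most `p` in every class of `D`. -/
theorem Pr_part_le (hw : IsLaw w) (cls : (Λ → X) → Set (Λ → X)) (hself : ∀ v, v ∈ cls v)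
    (hcls : ∀ v, ∀ v' ∈ cls v, cls v' = cls v) (D E : Set (Λ → X))
    (hD : ∀ v ∈ D, cls v ⊆ D) (p : ℝ)
    (h : ∀ v ∈ D, Pr w (E ∩ cls v) ≤ p * Pr w (cls v)) :
    Pr w (E ∩ D) ≤ p * Pr w D := by
  classical
  let c : (Λ → X) → Finset (Λ → X) := fun v => univ.filter (fun v' => v' ∈ cls v)
  have key : ∀ E : Set (Λ → X), Pr w (E ∩ D) =
      ∑ s ∈ (univ.filter (fun v => v ∈ D)).image c,
        ∑ v ∈ univ.filter (fun v => v ∈ E ∧ v ∈ s), wt w v := by
    intro E
    have h1 : Pr w (E ∩ D) = ∑ v ∈ (univ.filter (fun v => v ∈ D)).filter (fun v => v ∈ E),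
        wt w v := by
      unfold Pr
      refine sum_congr ?_ fun _ _ => rfl
      ext v
      simp only [mem_filter, mem_univ, true_and, Set.mem_inter_iff]
      exact and_comm
    rw [h1, ← sum_fiberwise_of_maps_to (g := c) (t := (univ.filter (fun v => v ∈ D)).image c)
      fun v hv => mem_image_of_mem _ (mem_filter.1 hv).1]
    refine sum_congr rfl fun s hs => sum_congr ?_ fun _ _ => rfl
    obtain ⟨u, hu, rfl⟩ := mem_image.1 hs
    have huD : u ∈ D := (mem_filter.1 hu).2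
    ext v
    simp only [mem_filter, mem_univ, true_and]
    constructor
    · rintro ⟨⟨h2, h3⟩, h4⟩
      refine ⟨h3, ?_⟩
      rw [← h4]
      exact mem_filter.2 ⟨mem_univ _, hself v⟩
    · rintro ⟨h2, h3⟩
      have h4 : v ∈ cls u := (mem_filter.1 h3).2
      refine ⟨⟨hD u huD h4, h2⟩, ?_⟩
      simp only [c, hcls u v h4]
  have k1 := key E
  have k2 := key Set.univ
  rw [Set.univ_inter] at k2
  rw [k1, k2, mul_sum]
  refine sum_le_sum fun s hs => ?_
  obtain ⟨u, hu, rfl⟩ := mem_image.1 hs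
  have huD : u ∈ D := (mem_filter.1 hu).2
  have h1 := h u huD
  have h2 : Pr w (E ∩ cls u) = ∑ v ∈ univ.filter (fun v => v ∈ E ∧ v ∈ c u), wt w v := by
    unfold Pr
    refine sum_congr ?_ fun _ _ => rfl
    ext v
    simp [c]
  have h3 : Pr w (cls u) =
      ∑ v ∈ univ.filter (fun v => v ∈ (Set.univ : Set (Λ → X)) ∧ v ∈ c u), wt w v := by
    unfold Pr
    refine sum_congr ?_ fun _ _ => rfl
    ext v
    simp [c]
  refine (le_of_eq h2.symm).trans (h1.trans (le_of_eq ?_))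
  rw [h3]
  congr 1
  refine sum_congr ?_ fun _ _ => rfl
  ext v
  simp

/-- Sum over the classes of a level function: `D` is a union of classes. -/
theorem Pr_LCl_le (hw : IsLaw w) (q : ℕ → X → ℤ) (lev : Λ → ℕ) (D E : Set (Λ → X))
    (hD : ∀ v ∈ D, ∀ v' ∈ LCl q lev v, v' ∈ D) (p : ℝ)
    (h : ∀ v ∈ D, Pr w (E ∩ LCl q lev v) ≤ p * Pr w (LCl q lev v)) :
    Pr w (E ∩ D) ≤ p * Pr w D :=
  Pr_part_le hw (fun v => LCl q lev v) (LCl_self q lev) (fun _ _ h' => LCl_eq h') D E
    (fun v hv v' hv' => hD v hv v' hv') p h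

/-- A bound in every finer class implies the bound in the coarser class. -/
theorem Pr_coarse_le (hw : IsLaw w) {q : ℕ → X → ℤ}
    (hq : ∀ n a b, q (n + 1) a = q (n + 1) b → q n a = q n b) {lev lev' : Λ → ℕ}
    (hl : ∀ x, lev x ≤ lev' x) (v : Λ → X) (E : Set (Λ → X)) (p : ℝ)
    (h : ∀ u ∈ LCl q lev v, Pr w (E ∩ LCl q lev' u) ≤ p * Pr w (LCl q lev' u)) :
    Pr w (E ∩ LCl q lev v) ≤ p * Pr w (LCl q lev v) :=
  Pr_LCl_le hw q lev' (LCl q lev v) E
    (fun u hu u' hu' => (LCl_eq hu) ▸ LCl_anti hq hl u hu') p h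

/-- The union bound over a run.  `F t` is the failure of the step `t`, `Gd t` the set of the
configurations whose state at time `t` is good. -/
theorem Pr_run_le (hw : IsLaw w) {q : ℕ → X → ℤ}
    (hq : ∀ n a b, q (n + 1) a = q (n + 1) b → q n a = q n b) (T : ℕ) (lev : ℕ → Λ → ℕ)
    (hlev : ∀ t x, lev t x ≤ lev (t + 1) x) (Gd F : ℕ → Set (Λ → X)) (p : ℕ → ℝ)
    (hp0 : ∀ t, 0 ≤ p t) (v : Λ → X)
    (hF : ∀ t < T, ∀ u ∈ F t, ∀ u' ∈ LCl q (lev (t + 1)) u, u' ∈ F t)
    (h0 : LCl q (lev 0) v ⊆ Gd 0)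
    (hstep : ∀ t < T, ∀ u ∈ LCl q (lev 0) v, u ∈ Gd t → u ∉ F t → u ∈ Gd (t + 1))
    (hp : ∀ t < T, ∀ u ∈ LCl q (lev 0) v, u ∈ Gd t →
      Pr w (F t ∩ LCl q (lev t) u) ≤ p t * Pr w (LCl q (lev t) u)) :
    Pr w ({u | ∃ t < T, u ∈ F t} ∩ LCl q (lev 0) v) ≤
      (∑ t ∈ range T, p t) * Pr w (LCl q (lev 0) v) := by
  classical
  have hmono : ∀ s t, s ≤ t → ∀ x, lev s x ≤ lev t x := by
    intro s t hst
    induction t, hst using Nat.le_induction with
    | base => exact fun _ => le_rfl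
    | succ t _ ih => exact fun x => (ih x).trans (hlev t x)
  let D : ℕ → Set (Λ → X) := fun t => {u | u ∈ LCl q (lev 0) v ∧ ∀ s < t, u ∉ F s}
  have hDG : ∀ t ≤ T, ∀ u ∈ D t, u ∈ Gd t := by
    intro t
    induction t with
    | zero => exact fun _ u hu => h0 hu.1
    | succ t ih =>
      intro ht u hu
      exact hstep t (Nat.lt_of_succ_le ht) u hu.1
        (ih (Nat.le_of_succ_le ht) u ⟨hu.1, fun s hs => hu.2 s (Nat.lt_succ_of_lt hs)⟩)
        (hu.2 t (Nat.lt_succ_self t))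
  have hDc : ∀ t ≤ T, ∀ u ∈ D t, ∀ u' ∈ LCl q (lev t) u, u' ∈ D t := by
    intro t ht u hu u' hu'
    refine ⟨?_, fun s hs hF' => hu.2 s hs ?_⟩
    · have h1 : u' ∈ LCl q (lev 0) u := LCl_anti hq (hmono 0 t (Nat.zero_le t)) u hu'
      rwa [LCl_eq hu.1] at h1
    · have h1 : u ∈ LCl q (lev t) u' := fun x => (hu' x).symm
      exact hF s (lt_of_lt_of_le hs ht) u' hF' u (LCl_anti hq (hmono (s + 1) t hs) u' h1)
  have hsub : ({u | ∃ t < T, u ∈ F t} ∩ LCl q (lev 0) v) ⊆ ⋃ t ∈ range T, (F t ∩ D t) := by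
    rintro u ⟨⟨t, ht, hu⟩, hv⟩
    have hex : ∃ t, t < T ∧ u ∈ F t := ⟨t, ht, hu⟩
    rw [Set.mem_iUnion₂]
    refine ⟨Nat.find hex, mem_range.2 (Nat.find_spec hex).1, (Nat.find_spec hex).2, hv, ?_⟩
    intro s hs hF'
    exact Nat.find_min hex hs ⟨hs.trans (Nat.find_spec hex).1, hF'⟩
  refine (Pr_mono hw hsub).trans ((Pr_iUnion_le hw _ _).trans ?_)
  rw [sum_mul]
  refine sum_le_sum fun t ht => ?_
  have ht' := mem_range.1 ht
  refine (Pr_LCl_le hw q (lev t) (D t) (F t) (hDc t ht'.le) (p t) fun u hu =>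
    hp t ht' u hu.1 (hDG t ht'.le u hu)).trans ?_
  exact mul_le_mul_of_nonneg_left (Pr_mono hw fun u hu => hu.1) (hp0 t)

/-- The union bound over a run, in a class of `Defs`. -/
theorem Pr_run_Cl_le (hw : IsLaw w) {q : ℕ → X → ℤ}
    (hq : ∀ n a b, q (n + 1) a = q (n + 1) b → q n a = q n b) {top : ℕ}
    (htop : Function.Injective (q top)) (n : ℕ) (A : Finset Λ) (T : ℕ) (lev : ℕ → Λ → ℕ)
    (hlev0 : ∀ x, lev 0 x = if x ∈ A then n else top)
    (hlev : ∀ t x, lev t x ≤ lev (t + 1) x) (Gd F : ℕ → Set (Λ → X)) (p : ℕ → ℝ)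
    (hp0 : ∀ t, 0 ≤ p t) (v : Λ → X)
    (hF : ∀ t < T, ∀ u ∈ F t, ∀ u' ∈ LCl q (lev (t + 1)) u, u' ∈ F t)
    (h0 : Cl (q n) A v ⊆ Gd 0)
    (hstep : ∀ t < T, ∀ u ∈ Cl (q n) A v, u ∈ Gd t → u ∉ F t → u ∈ Gd (t + 1))
    (hp : ∀ t < T, ∀ u ∈ Cl (q n) A v, u ∈ Gd t →
      Pr w (F t ∩ LCl q (lev t) u) ≤ p t * Pr w (LCl q (lev t) u)) :
    Pr w ({u | ∃ t < T, u ∈ F t} ∩ Cl (q n) A v) ≤
      (∑ t ∈ range T, p t) * Pr w (Cl (q n) A v) := by
  have h : Cl (q n) A v = LCl q (lev 0) v := by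
    rw [Cl_eq_LCl htop]
    congr 1
    ext x
    rw [hlev0]
  rw [h] at h0 hstep hp ⊢
  exact Pr_run_le hw hq T lev hlev Gd F p hp0 v hF h0 hstep hp

/-! ### Conditional laws -/

/-- the mass of the digit of level `n` of `a` -/
def mass (w : Λ → X → ℝ) (q : ℕ → X → ℤ) (lev : Λ → ℕ) (v : Λ → X) (x : Λ) : ℝ :=
  ∑ b, if q (lev x) b = q (lev x) (v x) then w x b else 0

/-- the conditional law of the site `x` -/
noncomputable def cw (w : Λ → X → ℝ) (q : ℕ → X → ℤ) (lev : Λ → ℕ) (v : Λ → X) :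
    Λ → X → ℝ :=
  fun x a => (if q (lev x) a = q (lev x) (v x) then w x a else 0) / mass w q lev v x

theorem mass_nonneg (hw : IsLaw w) (q : ℕ → X → ℤ) (lev : Λ → ℕ) (v : Λ → X) (x : Λ) :
    0 ≤ mass w q lev v x :=
  sum_nonneg fun b _ => by
    split_ifs
    exacts [hw.nonneg x b, le_rfl]

theorem cw_law (hw : IsLaw w) (q : ℕ → X → ℤ) (lev : Λ → ℕ) (v : Λ → X)
    (h : ∀ x, 0 < mass w q lev v x) : IsLaw (cw w q lev v) where
  nonneg x a := div_nonneg (by split_ifs; exacts [hw.nonneg x a, le_rfl]) (h x).le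
  sum_one x := by
    unfold cw
    rw [← sum_div]
    exact div_self (h x).ne'

open Classical in
/-- the weight inside a class -/
theorem wt_cw (q : ℕ → X → ℤ) (lev : Λ → ℕ) (v : Λ → X)
    (h : ∀ x, 0 < mass w q lev v x) (u : Λ → X) :
    (if u ∈ LCl q lev v then wt w u else 0) = (∏ x, mass w q lev v x) * wt (cw w q lev v) u := by
  unfold wt
  rw [← prod_mul_distrib]
  by_cases hu : u ∈ LCl q lev v
  · rw [if_pos hu]
    refine prod_congr rfl fun x _ => ?_
    unfold cw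
    rw [if_pos (hu x), mul_div_cancel₀ _ (h x).ne']
  · rw [if_neg hu]
    have : ∃ x, q (lev x) (u x) ≠ q (lev x) (v x) := by
      by_contra hcon
      push Not at hcon
      exact hu hcon
    obtain ⟨x, hx⟩ := this
    symm
    refine prod_eq_zero (mem_univ x) ?_
    unfold cw
    rw [if_neg hx, zero_div, mul_zero]

/-- Probabilities inside a class are product probabilities for the conditional laws. -/
theorem Pr_inter_LCl (q : ℕ → X → ℤ) (lev : Λ → ℕ) (v : Λ → X)
    (h : ∀ x, 0 < mass w q lev v x) (E : Set (Λ → X)) :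
    Pr w (E ∩ LCl q lev v) = (∏ x, mass w q lev v x) * Pr (cw w q lev v) E := by
  classical
  unfold Pr
  rw [sum_filter, sum_filter, mul_sum]
  refine sum_congr rfl fun u _ => ?_
  have h1 := wt_cw q lev v h u
  by_cases hE : u ∈ E
  · rw [if_pos hE, ← h1]
    by_cases hu : u ∈ LCl q lev v
    · rw [if_pos hu]
      exact if_pos ⟨hE, hu⟩
    · rw [if_neg hu]
      exact if_neg fun hh => hu hh.2
  · rw [if_neg hE, mul_zero]
    exact if_neg fun hh => hE hh.1

theorem Pr_LCl (hw : IsLaw w) (q : ℕ → X → ℤ) (lev : Λ → ℕ) (v : Λ → X)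
    (h : ∀ x, 0 < mass w q lev v x) : Pr w (LCl q lev v) = ∏ x, mass w q lev v x := by
  have h1 := Pr_inter_LCl q lev v h Set.univ
  rwa [Set.univ_inter, Pr_univ (cw_law hw q lev v h), mul_one] at h1

/-- a class of mass zero has probability zero -/
theorem Pr_LCl_zero (hw : IsLaw w) (q : ℕ → X → ℤ) (lev : Λ → ℕ) (v : Λ → X)
    (h : ¬ ∀ x, 0 < mass w q lev v x) : Pr w (LCl q lev v) = 0 := by
  classical
  push Not at h
  obtain ⟨x, hx⟩ := h
  have hx0 : mass w q lev v x = 0 := le_antisymm hx (mass_nonneg hw q lev v x)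
  unfold Pr
  refine sum_eq_zero fun u hu => ?_
  have hu' : u ∈ LCl q lev v := (mem_filter.1 hu).2
  refine prod_eq_zero (mem_univ x) ?_
  unfold mass at hx0
  rw [sum_eq_zero_iff_of_nonneg (fun b _ => by
    split_ifs
    exacts [hw.nonneg x b, le_rfl])] at hx0
  have := hx0 (u x) (mem_univ _)
  rwa [if_pos (hu' x)] at this

/-- The form in which conditional bounds are proved: a bound for the product of the conditional
laws gives the bound inside the class. -/
theorem Pr_LCl_of_cond (hw : IsLaw w) (q : ℕ → X → ℤ) (lev : Λ → ℕ) (v : Λ → X)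
    (E : Set (Λ → X)) (p : ℝ)
    (h : (∀ x, 0 < mass w q lev v x) → Pr (cw w q lev v) E ≤ p) :
    Pr w (E ∩ LCl q lev v) ≤ p * Pr w (LCl q lev v) := by
  by_cases hm : ∀ x, 0 < mass w q lev v x
  · rw [Pr_inter_LCl q lev v hm, Pr_LCl hw q lev v hm, mul_comm]
    exact mul_le_mul_of_nonneg_right (h hm) (prod_nonneg fun x _ => (hm x).le)
  · rw [Pr_LCl_zero hw q lev v hm, mul_zero]
    have h1 : Pr w (E ∩ LCl q lev v) ≤ Pr w (LCl q lev v) := Pr_mono hw fun u hu => hu.2
    rwa [Pr_LCl_zero hw q lev v hm] at h1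

/-! ### Expectations -/

/-- the expectation -/
def Ex (w : Λ → X → ℝ) (f : (Λ → X) → ℝ) : ℝ := ∑ v, wt w v * f v

theorem Ex_mono (hw : IsLaw w) {f g : (Λ → X) → ℝ} (h : ∀ v, f v ≤ g v) : Ex w f ≤ Ex w g :=
  sum_le_sum fun v _ => mul_le_mul_of_nonneg_left (h v) (wt_nonneg hw v)

theorem Ex_const (hw : IsLaw w) (c : ℝ) : Ex w (fun _ => c) = c := by
  have h : ∑ v : Λ → X, wt w v = 1 := by
    unfold wt
    rw [← Fintype.prod_sum]
    exact prod_eq_one fun x _ => hw.sum_one x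
  unfold Ex
  rw [← sum_mul, h, one_mul]

/-- Markov's inequality -/
theorem Pr_markov (hw : IsLaw w) (f : (Λ → X) → ℝ) (hf : ∀ v, 0 ≤ f v) (E : Set (Λ → X)) (c : ℝ)
    (hE : ∀ v ∈ E, c ≤ f v) : c * Pr w E ≤ Ex w f := by
  classical
  unfold Pr Ex
  rw [mul_sum, sum_filter]
  refine sum_le_sum fun v _ => ?_
  split_ifs with h
  · rw [mul_comm]
    exact mul_le_mul_of_nonneg_left (hE v h) (wt_nonneg hw v)
  · exact mul_nonneg (wt_nonneg hw v) (hf v)

end Pool.Agent.ANP
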